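import Pool.Agent.H29.UDP.TPro

/-!
# MP_47c37b: scaling limits: the general theorem for good laws
-/

set_option autoImplicit false

open MeasureTheory SchwartzMap Filter Topology
open scoped ENNReal ContDiff InnerProductSpace

namespace Pool.Agent.H29.UDP

open Pool.Agent.H43.DPC (V S SD moment trans rot IsMAO Diag pm Cond2 Cond3)
open Pool.Agent.H43.DPCS (TransInv Cond123 IsDPC cond1_iff)
open Pool.Agent.H80.LD (Re IsField pair ml RPos Dom LocP)

theorem isClosed_Diag' (d n : ℕ) : IsClosed (Diag d n) := by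
  have : Diag d n = ⋃ i : Fin n, ⋃ j : Fin n, {x : Fin n → V d | i ≠ j ∧ x i = x j} := by
    ext x
    simp [Diag]
  rw [this]
  refine isClosed_iUnion_of_finite fun i => isClosed_iUnion_of_finite fun j => ?_
  by_cases h : i = j
  · simp [h]
  · have h' : {x : Fin n → V d | i ≠ j ∧ x i = x j} = {x | x i = x j} := by
      ext x
      simp [h]
    rw [h']
    exact isClosed_eq (continuous_apply i) (continuous_apply j)

theorem negPart_li {d n : ℕ} (s : (Fin n → V d) → ℝ)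
    (h : ∀ x : Fin n → V d, x ∉ Diag d n → 0 ≤ s x) :
    LocallyIntegrable (fun x => max (-(s x)) 0) (volume.restrict (Diag d n)ᶜ) := by
  have hae : (fun x => max (-(s x)) 0) =ᵐ[volume.restrict (Diag d n)ᶜ] fun _ => (0 : ℝ) := by
    refine (ae_restrict_iff' (isClosed_Diag' d n).measurableSet.compl).2
      (Eventually.of_forall fun x hx => ?_)
    have := h x hx
    simp [this]
  have hz : LocallyIntegrable (fun _ : Fin n → V d => (0 : ℝ)) (volume.restrict (Diag d n)ᶜ) :=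
    locallyIntegrable_zero
  exact hz.congr hae.symm

/-- replacing the function off the diagonal -/
theorem cond_congr {d n : ℕ} (μ : Measure (SD d)) (s t : (Fin n → V d) → ℝ)
    (h : ∀ x, x ∉ Diag d n → s x = t x) (h1 : Pool.Agent.H43.DPC.Cond1 μ n s) (h2 : Cond2 n s)
    (h3 : Cond3 μ n s) :
    Pool.Agent.H43.DPC.Cond1 μ n t ∧ Cond2 n t ∧ Cond3 μ n t := by
  have hm : MeasurableSet (Diag d n)ᶜ := (isClosed_Diag' d n).measurableSet.compl
  have hae : s =ᵐ[volume.restrict (Diag d n)ᶜ] t :=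
    (ae_restrict_iff' hm).2 (Eventually.of_forall fun x hx => h x hx)
  have hint : ∀ f : Fin n → S d, ∫ x in (Diag d n)ᶜ, s x * ∏ i, f i (x i) =
      ∫ x in (Diag d n)ᶜ, t x * ∏ i, f i (x i) := by
    intro f
    refine setIntegral_congr_fun hm fun x hx => ?_
    simp only [h x hx]
  refine ⟨⟨h1.smooth.congr fun x hx => (h x hx).symm, fun f hf hd => ?_⟩, h2.congr hae,
    fun f => ⟨?_, ?_⟩⟩
  · rw [h1.eq f hf hd, hint f]
  · refine ((h3 f).1).congr_fun (fun x hx => ?_) hm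
    simp only [h x hx]
  · rw [(h3 f).2, hint f]

/-- (AGM) the general theorem for good laws -/
theorem pf_AGM (hIND : T_IND) (hUNG : T_UNG) (hFA2 : T_FA2) (hDO2 : T_DO2) (hPO2 : T_PO2)
    (hEX2 : T_EX2) (hTPF : T_TPF) (hIRF : T_IRF) (hPT2 : T_PT2)
    (hGLU : Pool.Agent.H80.LD.T_GLU) (hEVB : Pool.Agent.H80.LD.T_EVB)
    (hDCM : Pool.Agent.H80.LD.T_DCM) (hZER : Pool.Agent.H43.DPC.T_ZER) : T_AGM := by
  intro d a ha had
  have hd0 : (0 : ℝ) < (d : ℝ) := by linarith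
  have hd1 : 1 ≤ d := by
    rcases Nat.eq_zero_or_pos d with h | h
    · subst h; simp at hd0
    · exact h
  obtain ⟨A, hA, hI⟩ := hIRF d a hd1
  refine ⟨A, hA, ?_⟩
  intro μ C hG hT hC
  have he0 : (EuclideanSpace.single (⟨0, hd1⟩ : Fin d) (1 : ℝ)) ∈ Mir d := Or.inl ⟨_, rfl⟩
  haveI hprob : IsProbabilityMeasure μ := (hG _ he0).prob
  have hdom : Dom μ := (hG _ he0).dom
  have hM : IsMAO μ := hdom.mao
  have hDC : Pool.Agent.H43.DPC.IsDC μ := hDCM d μ hM fun f => hEVB d μ hdom f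
  have hloc := hIND d μ hM hT fun e he => ⟨(hG e he).rp, (hG e he).inv⟩
  have hUni : Uni μ a := hUNG d μ hdom a C hC
  have key : ∀ n : ℕ, ∃ s : (Fin n → V d) → ℝ, Pool.Agent.H43.DPC.Cond1 μ n s ∧ Cond2 n s ∧
      Cond3 μ n s ∧ ∀ x, x ∉ Diag d n → 0 ≤ s x := by
    intro n
    obtain ⟨s, hs⟩ := hGLU d μ hM n fun x hx => hloc n x hx
    have hs1 : Pool.Agent.H43.DPC.Cond1 μ n s := (cond1_iff μ n s).1 hs
    have hpos : ∀ x, x ∉ Diag d n → 0 ≤ s x := hPO2 d μ hdom n s hs1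
    rcases Nat.eq_zero_or_pos n with hn | hn
    · subst hn
      obtain ⟨h2, h3⟩ := hZER.zero' d μ s hs1
      exact ⟨s, hs1, h2, h3, hpos⟩
    · have h2 : Cond2 n s := hFA2 d μ hM a hUni had n hn s hs1 (negPart_li s hpos)
      have h3 : Cond3 μ n s := hEX2 d μ hdom n s hs1 h2 hpos
        (hDO2 d μ hM a hUni had n hn s hs1 h2)
      exact ⟨s, hs1, h2, h3, hpos⟩
  obtain ⟨s2, h21, h22, h23, h2p⟩ := key 2
  obtain ⟨F, hF, hFs, hFe⟩ := hTPF d μ hM hT s2 h21
  obtain ⟨g1, g2, g3⟩ := cond_congr μ s2 (fun x => F (x 0 - x 1)) hFe h21 h22 h23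
  have hFp : ∀ z, z ≠ 0 → 0 ≤ F z := by
    intro z hz
    have hx : (![z, 0] : Fin 2 → V d) ∉ Diag d 2 := by
      rintro ⟨i, j, hij, h⟩
      fin_cases i <;> fin_cases j <;> simp at hij h
      · exact hz h
      · exact hz h.symm
    have h1 := h2p _ hx
    rw [hFe _ hx] at h1
    simpa using h1
  refine ⟨⟨hM, hDC, fun n => ?_⟩, F, hF, hFp, ?_, ⟨(cond1_iff μ 2 _).2 g1, g2, g3⟩, fun n => ?_⟩
  · obtain ⟨s, h1, h2, h3, -⟩ := key n
    exact ⟨s, (cond1_iff μ n s).2 h1, h2, h3⟩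
  · intro r hr
    exact hI μ C hC F hF hFp g2 g3 r hr
  · obtain ⟨s, h1, h2, h3, hp⟩ := key n
    refine ⟨s, ⟨(cond1_iff μ n s).2 h1, h2, h3⟩, fun x hx => ⟨hp x hx, ?_⟩⟩
    exact hPT2 d μ hdom F hF hFp hFs g1 n s h1 x hx

end Pool.Agent.H29.UDP
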