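import Pool.Agent.H29.UDP.TPro

/-!
# MP_47c37b: scaling limits: the final assembly
-/

set_option autoImplicit false

open MeasureTheory SchwartzMap Filter Topology
open scoped ENNReal ContDiff InnerProductSpace

namespace Pool.Agent.H29.UDP

open Pool.Agent.H43.DPC (V S SD moment trans rot IsMAO Diag pm)
open Pool.Agent.H43.DPCS (TransInv Cond123 IsDPC)
open Pool.Agent.H80.LD (Re IsField pair ml RPos Dom LocP)

theorem goodM_of_reach2 (hMSG : T_MSG) (hCLM : T_CLM) {d : ℕ} {e : V d} {μ : Measure (SD d)}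
    (h : Reach2 e μ) : GoodM e μ := by
  induction h with
  | fin A F hF => exact hMSG d e A F hF
  | lim ν μ hν hμ h ih => exact hCLM d e ν μ ih hμ h

/-- (GEN) the general theorem -/
theorem pf_GEN (hMSG : T_MSG) (hCLM : T_CLM) (hAGM : T_AGM) : T_GEN := by
  intro d a ha had
  obtain ⟨A, hA, hmain⟩ := hAGM d a ha had
  refine ⟨A, hA, ?_⟩
  intro μ C hR hT hC
  exact hmain μ C (fun e he => goodM_of_reach2 hMSG hCLM (hR e he)) hT hC

theorem mom_ml' {d n : ℕ} (μ : Measure (SD d)) (f : Fin n → S d) :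
    moment μ f = ml μ (List.ofFn f) := by
  unfold moment ml
  apply integral_congr_ae
  refine Eventually.of_forall (fun T => ?_)
  simp only [List.map_ofFn, List.prod_ofFn, Function.comp]

/-- (LATT) the lattice theorem -/
theorem pf_LATT (hGEN : T_GEN) (hIVR : T_IVR) (hIVM : T_IVM) (hIVT : T_IVT) (hIVC : T_IVC)
    (hLMV : T_LMV) (hSMB : T_SMB) (hTRC : T_TRC) (hPRO : T_PRO) (hEXI : T_EXI) : T_LATT := by
  intro d α hα hαd
  have hd0 : (0 : ℝ) < (d : ℝ) := lt_trans hα hαd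
  have hd1 : 1 ≤ d := by
    rcases Nat.eq_zero_or_pos d with h | h
    · subst h; simp at hd0
    · exact h
  obtain ⟨AG, hAG, hG⟩ := hGEN d (((d : ℝ) - α) / 2) (by linarith) (by linarith)
  obtain ⟨AI, hAI, hI⟩ := hIVC d α hα hαd
  refine ⟨AG * AI, mul_nonneg hAG hAI, ?_⟩
  intro C δ κ κ' g b w hpar hδ hLRO
  have hs : (d : ℝ) ≤ 2 * (((d : ℝ) + α) / 2) := by linarith
  refine ⟨fun k => hEXI d α hα hαd (δ k) (κ k) (κ' k) (g k) (b k) (w k) (hpar k).1
    (hpar k).2.1 (hpar k).2.2.1 (hpar k).2.2.2.1 (hpar k).2.2.2.2.1 (hLRO k), ?_⟩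
  intro ν hν
  have hM := fun k => hIVM d (δ k) (κ k) (κ' k) (((d : ℝ) + α) / 2) (g k) (b k) (w k) hd1
    (hpar k).1 (hpar k).2.1.le (hpar k).2.2.1 hs (hpar k).2.2.2.1 (hpar k).2.2.2.2.1 (ν k) (hν k)
  have hprob : ∀ k, IsProbabilityMeasure (ν k) := fun k => (hν k).1
  have hdom : ∀ k, Dom (ν k) := fun k => (hM k).1
  -- the bound for the cubes
  have hcell : ∀ (k : ℕ) (t : ℝ) (y : V d) (h : S d), 0 < t → (∀ x, 0 ≤ h x ∧ h x ≤ 1) →
      (∀ x, h x ≠ 0 → ∀ j, |x j - y j| ≤ t) →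
      moment (ν k) ![h, h] ≤ AI * C * (max t (δ k)) ^ ((d : ℝ) + α) := by
    intro k t y h ht h01 hsupp
    have h1 := hI (δ k) (κ k) (κ' k) (g k) (b k) (w k) (hpar k).1 (hpar k).2.1 (hpar k).2.2.1
      (hpar k).2.2.2.1 (hpar k).2.2.2.2.1 (hLRO k) (ν k) (hν k) t y h ht h01 hsupp
    refine h1.trans ?_
    have h2 : w k ^ 2 / κ k ≤ C := by
      rw [div_le_iff₀ (hpar k).2.1]
      exact (hpar k).2.2.2.2.2
    have h3 : 0 ≤ (max t (δ k)) ^ ((d : ℝ) + α) :=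
      Real.rpow_nonneg (le_trans ht.le (le_max_left _ _)) _
    exact mul_le_mul_of_nonneg_right (mul_le_mul_of_nonneg_left h2 hAI) h3
  have hC0 : 0 ≤ C := by
    have h1 := (hpar 0).2.2.2.2.2
    have h2 : 0 ≤ w 0 ^ 2 := sq_nonneg _
    by_contra hneg
    push Not at hneg
    have h3 : C * κ 0 < 0 := mul_neg_of_neg_of_pos hneg (hpar 0).2.1
    linarith
  -- the second moments
  obtain ⟨D, hD⟩ : ∃ D : ℝ, ∀ k, δ k ≤ D := by
    obtain ⟨D, hD⟩ := hδ.bddAbove_range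
    exact ⟨D, fun k => hD ⟨k, rfl⟩⟩
  obtain ⟨CS, m, hCS, hS⟩ := hSMB d
  set K : ℝ := AI * C * (max 1 D) ^ ((d : ℝ) + α) with hK
  have hK0 : 0 ≤ K := mul_nonneg (mul_nonneg hAI hC0)
    (Real.rpow_nonneg (le_trans zero_le_one (le_max_left _ _)) _)
  have hsec : ∀ (k : ℕ) (f : S d), ∫ T : SD d, (T f) ^ 2 ∂(ν k) ≤
      (Real.sqrt K * CS * pm m f) ^ 2 := by
    intro k f
    haveI := hprob k
    have h1 := hS (ν k) (hdom k) K (fun y h h01 hsupp => by
      refine (hcell k 1 y h one_pos h01 hsupp).trans ?_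
      refine mul_le_mul_of_nonneg_left ?_ (mul_nonneg hAI hC0)
      refine Real.rpow_le_rpow (le_trans zero_le_one (le_max_left _ _)) ?_ (by linarith)
      exact max_le_max le_rfl (hD k)) f
    refine h1.trans (le_of_eq ?_)
    have h4 : Real.sqrt K ^ 2 = K := Real.sq_sqrt hK0
    calc K * (CS * pm m f) ^ 2 = Real.sqrt K ^ 2 * (CS * pm m f) ^ 2 := by rw [h4]
      _ = _ := by ring
  have hmem : ∀ k (f : S d), MemLp (fun T : SD d => T f) 2 (ν k) := by
    intro k f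
    exact (hdom k).mao f 2 (by norm_num)
  refine ⟨hPRO d m (Real.sqrt K * CS) ν hprob hmem hsec, ?_⟩
  intro φ μ hφ hμ hcv
  have hTI : TransInv μ := by
    refine hTRC d (fun k => ν (φ k)) μ (fun k => δ (φ k)) (Real.sqrt K * CS) m
      (fun k => ⟨hprob (φ k), (hdom (φ k)).mao⟩) hμ hcv (fun k => (hpar (φ k)).1)
      (hδ.comp hφ.tendsto_atTop) (fun k z f => ?_) (fun k f => hsec (φ k) f)
    exact hIVT d (δ (φ k)) (κ (φ k)) (κ' (φ k)) (((d : ℝ) + α) / 2) (g (φ k)) (b (φ k)) (w (φ k))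
      hd1 (hpar _).1 (hpar _).2.1.le (hpar _).2.2.1 hs (hpar _).2.2.2.1 (hpar _).2.2.2.2.1
      (ν (φ k)) (hν (φ k)) z f
  refine ⟨hTI, ?_⟩
  have hR : ∀ e ∈ Mir d, Reach2 e μ := by
    intro e he
    refine Reach2.lim (fun k => ν (φ k)) μ (fun k => ?_) hμ hcv
    exact hIVR d (δ (φ k)) (κ (φ k)) (κ' (φ k)) (((d : ℝ) + α) / 2) (g (φ k)) (b (φ k)) (w (φ k))
      (hpar _).1 (hpar _).2.1.le (hpar _).2.2.1 hs (hpar _).2.2.2.1 (hpar _).2.2.2.2.1
      (ν (φ k)) (hν (φ k)) e he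
  have hlm := hLMV d (fun k => ν (φ k)) μ (fun k => ⟨hprob (φ k), hdom (φ k)⟩) hμ hcv
  have hCB : CellB μ (((d : ℝ) - α) / 2) (AI * C) := by
    intro t y h ht h01 hsupp
    have hexp : 2 * ((d : ℝ) - ((d : ℝ) - α) / 2) = (d : ℝ) + α := by ring
    rw [hexp]
    have h1 : Tendsto (fun k => moment (ν (φ k)) ![h, h]) atTop (𝓝 (moment μ ![h, h])) := by
      have := hlm.2 (List.ofFn ![h, h])
      simp only [← mom_ml'] at this
      exact this
    have h2 : Tendsto (fun k => AI * C * (max t (δ (φ k))) ^ ((d : ℝ) + α)) atTop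
        (𝓝 (AI * C * t ^ ((d : ℝ) + α))) := by
      refine Tendsto.const_mul _ ?_
      have h3 : Tendsto (fun k => max t (δ (φ k))) atTop (𝓝 (max t 0)) :=
        Tendsto.max tendsto_const_nhds (hδ.comp hφ.tendsto_atTop)
      rw [max_eq_left ht.le] at h3
      exact h3.rpow_const (Or.inl ht.ne')
    exact le_of_tendsto_of_tendsto' h1 h2 (fun k => hcell (φ k) t y h ht h01 hsupp)
  have hfin := hG μ (AI * C) hR hTI hCB
  have e1 : (d : ℝ) - 2 * (((d : ℝ) - α) / 2) = α := by ring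
  rw [e1, ← mul_assoc] at hfin
  exact hfin

end Pool.Agent.H29.UDP
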