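import Pool.Agent.H29.UDP.TPro

/-!
# MP_47c37b: scaling limits: the infinite volume law exists and is unique
-/

set_option autoImplicit false

open MeasureTheory SchwartzMap Filter Topology
open scoped ENNReal ContDiff InnerProductSpace

namespace Pool.Agent.H29.UDP.EXI

open Pool.Agent.H29.UDP
open Pool.Agent.H43.DPC (V S SD moment trans rot IsMAO Diag pm Cond2 Cond3)
open Pool.Agent.H43.DPCS (TransInv Cond123 IsDPC)
open Pool.Agent.H80.LD (Re IsField pair ml RPos Dom LocP)

theorem meas_eval {d : ℕ} (f : S d) : Measurable fun T : SD d => T f :=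
  (WeakDual.eval_continuous f).measurable

theorem mom_ml' {d n : ℕ} (μ : Measure (SD d)) (f : Fin n → S d) :
    moment μ f = ml μ (List.ofFn f) := by
  unfold moment ml
  apply integral_congr_ae
  refine Eventually.of_forall (fun T => ?_)
  simp only [List.map_ofFn, List.prod_ofFn, Function.comp]

theorem reach_good (hMSG : T_MSG) (hCLM : T_CLM) {d : ℕ} {e : V d} {μ : Measure (SD d)}
    (h : Reach2 e μ) : GoodM e μ := by
  induction h with
  | fin A F hF => exact hMSG d e A F hF
  | lim ν μ hν hμ h ih => exact hCLM d e ν μ ih hμ h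

/-- moments of the image measure -/
theorem mom_map {d : ℕ} {ι : Type} [Fintype ι] (P : Measure (ι → ℝ)) (pos : ι → V d)
    (w : ι → ℝ) (F : (ι → ℝ) → SD d) (hF : IsField pos w F) (hc : Continuous F) {n : ℕ}
    (f : Fin n → S d) :
    moment (P.map F) f = ∫ φ : ι → ℝ, ∏ i, ∑ x, w x * φ x * f i (pos x) ∂P := by
  unfold moment
  rw [integral_map hc.measurable.aemeasurable]
  · refine integral_congr_ae (Eventually.of_forall fun φ => ?_)
    simp only [hF φ]
  · exact (Finset.measurable_prod _ fun i _ => meas_eval (f i)).aestronglyMeasurable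

/-- the characteristic functional of the image measure -/
theorem cf_map {d : ℕ} {ι : Type} [Fintype ι] (P : Measure (ι → ℝ)) (pos : ι → V d)
    (w : ι → ℝ) (F : (ι → ℝ) → SD d) (hF : IsField pos w F) (hc : Continuous F)
    (f : S d) :
    ∫ T : SD d, Complex.exp (Complex.I * ((T f : ℝ) : ℂ)) ∂(P.map F) =
      ∫ φ : ι → ℝ, Complex.exp (Complex.I * ((∑ x, w x * φ x * f (pos x) : ℝ) : ℂ)) ∂P := by
  rw [integral_map hc.measurable.aemeasurable]
  · refine integral_congr_ae (Eventually.of_forall fun φ => ?_)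
    simp only [hF φ]
  · have hm : Measurable fun T : SD d => Complex.exp (Complex.I * ((T f : ℝ) : ℂ)) :=
      Complex.measurable_exp.comp
        ((Complex.measurable_ofReal.comp (meas_eval f)).const_mul _)
    exact hm.aestronglyMeasurable

/-- equality of multilinear maps on nonnegative arguments is enough -/
theorem multi_eq (hMAJ : Pool.Agent.H80.LD.T_MAJ) {d n : ℕ}
    (M M' : MultilinearMap ℝ (fun _ : Fin n => S d) ℝ)
    (h : ∀ f : Fin n → S d, (∀ i x, 0 ≤ f i x) → M f = M' f) (f : Fin n → S d) : M f = M' f := by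
  have key : ∀ (s : Finset (Fin n)) (f : Fin n → S d), (∀ i ∉ s, ∀ x, 0 ≤ f i x) →
      M f = M' f := by
    intro s
    induction s using Finset.induction_on with
    | empty => exact fun f hf => h f fun i x => hf i (Finset.notMem_empty i) x
    | insert j s hj ih =>
      intro f hf
      obtain ⟨g, hg⟩ := hMAJ d (f j)
      have e1 : f = Function.update f j ((f j + g) - g) := by
        rw [add_sub_cancel_right, Function.update_eq_self]
      rw [e1, MultilinearMap.map_update_sub, MultilinearMap.map_update_sub]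
      have h1 : ∀ u : S d, (∀ x, 0 ≤ u x) →
          M (Function.update f j u) = M' (Function.update f j u) := by
        intro u hu
        refine ih _ fun i hi x => ?_
        by_cases hij : i = j
        · subst hij
          rw [Function.update_self]
          exact hu x
        · rw [Function.update_of_ne hij]
          exact hf i (by simp [hij, hi]) x
      have h3 : ∀ x, 0 ≤ (f j + g) x := by
        intro x
        have := hg x
        have h2 := neg_abs_le (f j x)
        change 0 ≤ f j x + g x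
        linarith
      rw [h1 (f j + g) h3, h1 g fun x => (abs_nonneg _).trans (hg x)]
  exact key Finset.univ f fun i hi => absurd (Finset.mem_univ i) hi

theorem pf_EXI (hPRO : T_PRO) (hCEB : T_CEB) (hBXM : T_BXM) (hMSG : T_MSG) (hCLM : T_CLM)
    (hLMV : T_LMV) (hBXR : T_BXR) (hFEX : T_FEX) (hSMB : T_SMB)
    (hECF : Pool.Agent.H80.LD.T_ECF) (hDCM : Pool.Agent.H80.LD.T_DCM)
    (hEVB : Pool.Agent.H80.LD.T_EVB) (hMAJ : Pool.Agent.H80.LD.T_MAJ)
    (hHOL : Pool.Agent.H43.DPC.T_HOL) : T_EXI := by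
  intro d α hα hαd δ κ κ' g b w hδ hκ hκ' hg hw hLRO
  have hd0 : (0 : ℝ) < (d : ℝ) := lt_trans hα hαd
  have hd1 : 1 ≤ d := by
    rcases Nat.eq_zero_or_pos d with h | h
    · subst h; simp at hd0
    · exact h
  have hs : (d : ℝ) ≤ 2 * (((d : ℝ) + α) / 2) := by linarith
  set s : ℝ := ((d : ℝ) + α) / 2 with hsdef
  -- the fields in the boxes
  choose F hF hFc using fun L : ℕ => hFEX d (Bx d L) (bpos δ) (fun _ => w)
  set ν : ℕ → Measure (SD d) := fun L => (bgibbs d L δ κ κ' s g b).map (F L) with hνdef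
  have he0 : (EuclideanSpace.single (⟨0, hd1⟩ : Fin d) (1 : ℝ)) ∈ Mir d := Or.inl ⟨_, rfl⟩
  have hgood : ∀ L, GoodM (EuclideanSpace.single (⟨0, hd1⟩ : Fin d) (1 : ℝ)) (ν L) := fun L =>
    reach_good hMSG hCLM (hBXR d L δ κ κ' s g b w hδ hκ.le hκ' hs hg hw _ he0 (F L) (hF L))
  have hprob : ∀ L, IsProbabilityMeasure (ν L) := fun L => (hgood L).prob
  have hdom : ∀ L, Dom (ν L) := fun L => (hgood L).dom
  have hmom : ∀ (L n : ℕ) (f : Fin n → S d), moment (ν L) f =
      ∫ φ : Bx d L → ℝ, ∏ i, ∑ x, w * φ x * f i (bpos δ x) ∂(bgibbs d L δ κ κ' s g b) :=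
    fun L n f => mom_map _ _ _ _ (hF L) (hFc L) f
  have hcf : ∀ (L : ℕ) (f : S d), ∫ T : SD d, Complex.exp (Complex.I * ((T f : ℝ) : ℂ)) ∂(ν L) =
      ∫ φ : Bx d L → ℝ, Complex.exp (Complex.I * ((∑ x, w * φ x * f (bpos δ x) : ℝ) : ℂ))
        ∂(bgibbs d L δ κ κ' s g b) := fun L f => cf_map _ _ _ _ (hF L) (hFc L) f
  -- second moments
  obtain ⟨A, hA, hcell⟩ := hCEB d α hα hαd
  obtain ⟨CS, m, hCS, hS⟩ := hSMB d
  set K : ℝ := A * (w ^ 2 / κ) * (max 1 δ) ^ ((d : ℝ) + α) with hK
  have hK0 : 0 ≤ K := mul_nonneg (mul_nonneg hA (div_nonneg (sq_nonneg _) hκ.le))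
    (Real.rpow_nonneg (le_trans zero_le_one (le_max_left _ _)) _)
  have hsec : ∀ (L : ℕ) (f : S d), ∫ T : SD d, (T f) ^ 2 ∂(ν L) ≤
      (Real.sqrt K * CS * pm m f) ^ 2 := by
    intro L f
    have := hprob L
    have h1 := hS (ν L) (hdom L) K (fun y h h01 hsupp => by
      rw [hmom]
      have h2 := hcell δ κ κ' g b w hδ hκ hκ' hg hw hLRO L 1 y (fun x => h x) one_pos h01 hsupp
      refine le_trans (le_of_eq ?_) h2
      refine integral_congr_ae (Eventually.of_forall fun φ => ?_)
      simp [Fin.prod_univ_two, sq]) f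
    refine h1.trans (le_of_eq ?_)
    have h4 : Real.sqrt K ^ 2 = K := Real.sq_sqrt hK0
    calc K * (CS * pm m f) ^ 2 = Real.sqrt K ^ 2 * (CS * pm m f) ^ 2 := by rw [h4]
      _ = _ := by ring
  have hmem : ∀ L (f : S d), MemLp (fun T : SD d => T f) 2 (ν L) := fun L f =>
    (hdom L).mao f 2 (by norm_num)
  -- the moments increase
  have hmono : ∀ (n : ℕ) (f : Fin n → S d), (∀ i x, 0 ≤ f i x) →
      Monotone fun L => moment (ν L) f := by
    intro n f hf L L' hLL
    simp only [hmom]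
    have h1 := hBXM d L L' 0 δ κ κ' s g b w hδ hκ.le hκ' hg hw (fun j => by simpa using hLL) n
      (fun i x => f i x) hf
    have h0 : ipt δ (0 : Fin d → ℤ) = (0 : V d) := by
      ext j
      simp [ipt]
    simpa only [h0, add_zero] using h1
  -- two limits coincide
  have huniq : ∀ (ψ ψ' : ℕ → ℕ) (μ μ' : Measure (SD d)), Tendsto ψ atTop atTop →
      Tendsto ψ' atTop atTop → IsProbabilityMeasure μ → IsProbabilityMeasure μ' →
      Cvg (fun k => ν (ψ k)) μ → Cvg (fun k => ν (ψ' k)) μ' → μ = μ' := by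
    intro ψ ψ' μ μ' hψ hψ' hμ hμ' hc hc'
    obtain ⟨hD, hl⟩ := hLMV d (fun k => ν (ψ k)) μ (fun k => ⟨hprob _, hdom _⟩) hμ hc
    obtain ⟨hD', hl'⟩ := hLMV d (fun k => ν (ψ' k)) μ' (fun k => ⟨hprob _, hdom _⟩) hμ' hc'
    have hlim : ∀ (n : ℕ) (f : Fin n → S d), (∀ i x, 0 ≤ f i x) → moment μ f = moment μ' f := by
      intro n f hf
      have h1 : Tendsto (fun k => moment (ν (ψ k)) f) atTop (𝓝 (moment μ f)) := by
        have := hl (List.ofFn f)
        simp only [← mom_ml'] at this
        exact this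
      have h2 : Tendsto (fun k => moment (ν (ψ' k)) f) atTop (𝓝 (moment μ' f)) := by
        have := hl' (List.ofFn f)
        simp only [← mom_ml'] at this
        exact this
      have h3 := (tendsto_iff_tendsto_subseq_of_monotone (hmono n f hf) hψ).2 h1
      have h4 := (tendsto_iff_tendsto_subseq_of_monotone (hmono n f hf) hψ').2 h2
      exact tendsto_nhds_unique h3 h4
    have hDC : Pool.Agent.H43.DPC.IsDC μ' :=
      hDCM d μ' hD'.mao fun f => hEVB d μ' hD' f
    refine hDC μ hμ hD.mao fun n f => ?_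
    obtain ⟨M, hM⟩ := (hHOL d μ hD.mao).2.1 n
    obtain ⟨M', hM'⟩ := (hHOL d μ' hD'.mao).2.1 n
    rw [← hM, ← hM']
    refine multi_eq hMAJ M M' (fun f hf => ?_) f
    rw [hM, hM']
    exact hlim n f hf
  obtain ⟨φ₀, hφ₀, μ, hμ, hc₀⟩ := hPRO d m (Real.sqrt K * CS) ν hprob hmem hsec
  have hmain : ∀ f : S d,
      Tendsto (fun L => ∫ T : SD d, Complex.exp (Complex.I * ((T f : ℝ) : ℂ)) ∂(ν L)) atTop
        (𝓝 (∫ T : SD d, Complex.exp (Complex.I * ((T f : ℝ) : ℂ)) ∂μ)) := by
    intro f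
    refine tendsto_of_subseq_tendsto fun ns hns => ?_
    obtain ⟨φ, hφ, μ', hμ', hc'⟩ := hPRO d m (Real.sqrt K * CS) (fun k => ν (ns k))
      (fun k => hprob _) (fun k f => hmem _ f) (fun k f => hsec _ f)
    have he : μ' = μ := huniq (fun k => ns (φ k)) φ₀ μ' μ (hns.comp hφ.tendsto_atTop)
      hφ₀.tendsto_atTop hμ' hμ hc' hc₀
    refine ⟨φ, ?_⟩
    rw [← he]
    exact hc' f
  refine ⟨μ, ⟨hμ, fun f => ?_⟩, ?_⟩
  · have := hmain f
    simp only [hcf] at this
    exact this
  · rintro μ' ⟨hμ', h'⟩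
    refine hECF d μ' μ hμ' hμ fun f => ?_
    have h1 := hmain f
    simp only [hcf] at h1
    exact tendsto_nhds_unique (h' f) h1

end Pool.Agent.H29.UDP.EXI
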