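import Pool.Agent.H29.UDP.TPro

/-!
# MP_47c37b: scaling limits: smoothness off the diagonal
-/

set_option autoImplicit false

open MeasureTheory SchwartzMap Filter Topology
open scoped ENNReal ContDiff InnerProductSpace

namespace Pool.Agent.H29.UDP

open Pool.Agent.H43.DPC (V S SD moment trans rot IsMAO Diag pm Cond2 Cond3)
open Pool.Agent.H43.DPCS (TransInv Cond123 IsDPC)
open Pool.Agent.H80.LD (Re IsField pair ml RPos Dom LocP)

theorem pf_IND (hAPI : T_API) (hDIG : T_DIG) (hLOX : T_LOX) (hDI2 : T_DI2) (hGEO : T_GEO)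
    (hSTP : T_STP) (hMRN : T_MRN) : T_IND := by
  intro d μ _ hM hT hR n
  obtain ⟨ρ, hρ⟩ := hAPI d
  obtain ⟨Λ, N, hΛ, hdig⟩ := hDIG d μ hM hT ρ hρ n
  have key : ∀ (j : ℕ) (x : Fin n → V d), x ∉ Diag d n → (co x).card = j → LocP μ n x := by
    intro j
    induction j using Nat.strong_induction_on with
    | _ j ih =>
      intro x hx hj
      by_cases hco : co x = ∅
      · obtain ⟨D, δ, hδ, hspan, hD⟩ := hDI2 d n x hx hco
        refine hLOX d μ hM hT ρ hρ n x (δ / 4) D N ⌈4 / δ⌉₊ (by positivity) hspan fun m => ?_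
        refine ⟨Λ * (8 / δ * m) ^ m, δ / (4 * (m + 1)), by positivity, ?_⟩
        intro k hk v hv h hh hhη y hy
        obtain ⟨e, he, R, c, rfl, hspt⟩ := hD v hv
        have hk4 : 4 ≤ δ * ((k : ℝ) + 1) := by
          have h1 : 4 / δ ≤ (k : ℝ) := (Nat.le_ceil _).trans (by exact_mod_cast hk)
          rw [div_le_iff₀ hδ] at h1
          nlinarith
        have hmq : (m : ℝ) * h ≤ δ / 4 := by
          have h1 : (m : ℝ) * h ≤ (m + 1) * (δ / (4 * (m + 1))) := by
            have : (0 : ℝ) ≤ (m : ℝ) := Nat.cast_nonneg m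
            exact mul_le_mul (by linarith) hhη hh.le (by linarith)
          have h2 : ((m : ℝ) + 1) * (δ / (4 * (m + 1))) = δ / 4 := by
            field_simp
          linarith
        have h3 := hdig e (hMRN d e he) (hR e he).1 (hR e he).2 x R c δ hδ hspt k hk4 y hy 0
          le_rfl m h hh hmq
        rw [zero_smul, add_zero] at h3
        refine h3.trans (le_of_eq ?_)
        rw [show 8 / δ * ((m : ℝ) * h) = (8 / δ * m) * h by ring, mul_pow]
        ring
      · obtain ⟨e, he, R, c, δ, τ₀, hδ, hτ₀, hspt, hdec⟩ :=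
          hGEO d n x hx (Finset.nonempty_iff_ne_empty.2 hco)
        refine hSTP d μ hM hT n x e R c δ τ₀ (hMRN d e he) (hR e he).1 (hR e he).2 hδ hτ₀ hspt
          fun τ h1 h2 => ?_
        obtain ⟨h3, h4⟩ := hdec τ h1 h2
        exact ih _ (hj ▸ h4) _ h3 rfl
  intro x hx
  exact key _ x hx rfl

end Pool.Agent.H29.UDP
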