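import Pool.Agent.H29.UDP.TPro

/-!
# MP_47c37b: scaling limits: the mass of the two point function in the balls
-/

set_option autoImplicit false

open MeasureTheory SchwartzMap Filter Topology
open scoped ENNReal ContDiff InnerProductSpace

namespace Pool.Agent.H29.UDP.IRF

open Pool.Agent.H29.UDP
open Pool.Agent.H43.DPC (V S SD moment trans rot IsMAO Diag pm Cond2 Cond3)

theorem isClosed_Diag' (d n : ℕ) : IsClosed (Diag d n) := by
  have : Diag d n = ⋃ i : Fin n, ⋃ j : Fin n, {x : Fin n → V d | i ≠ j ∧ x i = x j} := by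
    ext x
    simp [Diag]
  rw [this]
  refine isClosed_iUnion_of_finite fun i => isClosed_iUnion_of_finite fun j => ?_
  by_cases h : i = j
  · simp [h]
  · have h' : {x : Fin n → V d | i ≠ j ∧ x i = x j} = {x | x i = x j} := by
      ext x
      simp [h]
    rw [h']
    exact isClosed_eq (continuous_apply i) (continuous_apply j)

/-- a test function equal to `1` on the ball of radius `2r`, with support in the ball of radius
`4r` -/
theorem exists_bump (d : ℕ) (r : ℝ) (hr : 0 < r) : ∃ h : S d, (∀ x, 0 ≤ h x ∧ h x ≤ 1) ∧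
    (∀ x, ‖x‖ < 2 * r → h x = 1) ∧ ∀ x, h x ≠ 0 → ‖x‖ ≤ 4 * r := by
  let f : ContDiffBump (0 : V d) := ⟨2 * r, 4 * r, by linarith, by linarith⟩
  have h1 : HasCompactSupport f := f.hasCompactSupport
  have h2 : ContDiff ℝ ∞ f := f.contDiff
  refine ⟨h1.toSchwartzMap h2, fun x => ⟨f.nonneg, f.le_one⟩, fun x hx => ?_, fun x hx => ?_⟩
  · change f x = 1
    refine f.one_of_mem_closedBall ?_
    rw [Metric.mem_closedBall, dist_zero_right]
    exact hx.le
  · have h3 : x ∈ Function.support f := hx
    rw [f.support_eq, Metric.mem_ball, dist_zero_right] at h3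
    exact h3.le

theorem pf_IRF : T_IRF := by
  intro d a hd
  set v : ℝ := (volume (Metric.ball (0 : V d) 1)).toReal with hv
  have hv0 : 0 < v := ENNReal.toReal_pos (Metric.measure_ball_pos _ _ one_pos).ne'
    measure_ball_lt_top.ne
  refine ⟨4 ^ (2 * ((d : ℝ) - a)) / v, by positivity, ?_⟩
  intro μ _ C hC F hF hFp _ h3 r hr
  have : Nonempty (Fin d) := ⟨⟨0, hd⟩⟩
  obtain ⟨h, h01, hone, hsupp⟩ := exists_bump d r hr
  have hm : moment μ ![h, h] ≤ C * (4 * r) ^ (2 * ((d : ℝ) - a)) := by
    refine hC (4 * r) 0 h (by linarith) h01 fun x hx j => ?_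
    have h1 := hsupp x hx
    have h2 : |x j| ≤ ‖x‖ := by
      rw [← Real.norm_eq_abs]
      exact PiLp.norm_apply_le x j
    simpa using h2.trans h1
  obtain ⟨hi, he⟩ := h3 ![h, h]
  have hDm : MeasurableSet (Diag d 2)ᶜ := (isClosed_Diag' d 2).measurableSet.compl
  set f : (Fin 2 → V d) → ℝ := (Diag d 2)ᶜ.indicator
    (fun x => F (x 0 - x 1) * ∏ i, (![h, h] : Fin 2 → S d) i (x i)) with hf
  have hfi : Integrable f := (integrable_indicator_iff hDm).2 hi
  have hfe : ∫ x, f x = moment μ ![h, h] := by
    rw [he, hf, integral_indicator hDm]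
  -- the substitution
  have hT : MeasurePreserving (fun p : V d × V d => (![p.1 + p.2, p.1] : Fin 2 → V d))
      (volume.prod volume) volume := by
    have t1 : MeasurePreserving (fun z : V d × V d => (z.1, z.1 + z.2))
        (volume.prod volume) (volume.prod volume) := measurePreserving_prod_add volume volume
    have t2 : MeasurePreserving (Prod.swap : V d × V d → V d × V d)
        (volume.prod volume) (volume.prod volume) := Measure.measurePreserving_swap
    have t3 := (volume_preserving_finTwoArrow (V d)).symm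
    have t4 := t3.comp (t2.comp t1)
    have e : (fun p : V d × V d => (![p.1 + p.2, p.1] : Fin 2 → V d)) =
        (MeasurableEquiv.finTwoArrow (α := V d)).symm ∘ Prod.swap ∘
          fun z : V d × V d => (z.1, z.1 + z.2) := by
      funext p
      rfl
    rw [e]
    exact t4
  set T : V d × V d → (Fin 2 → V d) := fun p => ![p.1 + p.2, p.1] with hTdef
  have hfT : Integrable (fun p => f (T p)) (volume.prod volume) :=
    (hT.integrable_comp hfi.aestronglyMeasurable).2 hfi
  have hfTe : ∫ p, f (T p) ∂(volume.prod volume) = ∫ x, f x := by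
    have h1 := integral_map (μ := (volume : Measure (V d)).prod volume) (φ := T)
      hT.aemeasurable (f := f) (by rw [hT.map_eq]; exact hfi.aestronglyMeasurable)
    rw [hT.map_eq] at h1
    exact h1.symm
  set B : Set (V d) := Metric.ball 0 r with hB
  set B' : Set (V d) := Metric.ball 0 r \ {0} with hB'
  have hBm : MeasurableSet B := measurableSet_ball
  have hB'm : MeasurableSet B' := measurableSet_ball.diff (measurableSet_singleton 0)
  set g : V d × V d → ℝ := fun p => B.indicator (fun _ => (1 : ℝ)) p.1 * B'.indicator F p.2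
    with hg
  have hFm : AEStronglyMeasurable (B'.indicator F) volume := by
    rw [aestronglyMeasurable_indicator_iff hB'm]
    exact ContinuousOn.aestronglyMeasurable (hF.continuousOn.mono fun z hz => hz.2) hB'm
  have h1m : AEStronglyMeasurable (B.indicator (fun _ : V d => (1 : ℝ))) volume :=
    (measurable_const.indicator hBm).aestronglyMeasurable
  have hgm : AEStronglyMeasurable g (volume.prod volume) := h1m.comp_fst.mul hFm.comp_snd
  have hg0 : ∀ p, 0 ≤ g p := by
    intro p
    refine mul_nonneg (Set.indicator_nonneg (fun _ _ => zero_le_one) _)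
      (Set.indicator_nonneg (fun z hz => hFp z hz.2) _)
  have hgf : ∀ p, g p ≤ f (T p) := by
    intro p
    have hf0 : 0 ≤ f (T p) := by
      refine Set.indicator_nonneg (fun x hx => ?_) _
      have h1 : x 0 - x 1 ≠ 0 := by
        intro h
        exact hx ⟨0, 1, by decide, sub_eq_zero.1 h⟩
      refine mul_nonneg (hFp _ h1) ?_
      rw [Fin.prod_univ_two]
      exact mul_nonneg (h01 _).1 (h01 _).1
    by_cases h1 : p.1 ∈ B
    · by_cases h2 : p.2 ∈ B'
      · have hD : T p ∈ (Diag d 2)ᶜ := by
          rintro ⟨i, j, hij, h⟩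
          fin_cases i <;> fin_cases j <;> simp [hTdef] at hij h
          · exact h2.2 h
          · exact h2.2 h
        have e1 : ‖p.1‖ < r := by simpa [hB] using h1
        have e2 : ‖p.2‖ < r := by simpa [hB'] using h2.1
        have e3 : ‖p.1 + p.2‖ < 2 * r := (norm_add_le _ _).trans_lt (by linarith)
        have e4 : g p = F p.2 := by
          simp only [hg, Set.indicator_of_mem h1, Set.indicator_of_mem h2, one_mul]
        have e5 : f (T p) = F p.2 := by
          rw [hf, Set.indicator_of_mem hD, Fin.prod_univ_two]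
          have : h (p.1 + p.2) = 1 := hone _ e3
          have h' : h p.1 = 1 := hone _ (by linarith)
          simp [hTdef, this, h']
        rw [e4, e5]
      · have e4 : g p = 0 := by
          simp only [hg, Set.indicator_of_notMem h2, mul_zero]
        rw [e4]; exact hf0
    · have e4 : g p = 0 := by
        simp only [hg, Set.indicator_of_notMem h1, zero_mul]
      rw [e4]; exact hf0
  have hgi : Integrable g (volume.prod volume) := by
    refine hfT.mono' hgm (Eventually.of_forall fun p => ?_)
    rw [Real.norm_of_nonneg (hg0 p)]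
    exact hgf p
  have hle : ∫ p, g p ∂(volume.prod volume) ≤ C * (4 * r) ^ (2 * ((d : ℝ) - a)) := by
    calc ∫ p, g p ∂(volume.prod volume) ≤ ∫ p, f (T p) ∂(volume.prod volume) :=
          integral_mono hgi hfT hgf
      _ = moment μ ![h, h] := by rw [hfTe, hfe]
      _ ≤ _ := hm
  have hge : ∫ p, g p ∂(volume.prod volume) = (r ^ d * v) * ∫ z in B', F z := by
    rw [hg, integral_prod_mul (B.indicator (fun _ : V d => (1 : ℝ))) (B'.indicator F),
      integral_indicator hB'm, integral_indicator hBm, setIntegral_const, smul_eq_mul, mul_one,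
      Measure.real, hB, Measure.addHaar_ball _ _ hr.le, ENNReal.toReal_mul, ENNReal.toReal_ofReal
      (by positivity)]
    simp [hv]
  have hFi : IntegrableOn F B' := by
    have h1 := hgi.prod_right_ae
    have h2 : ∀ᵐ y ∂(volume.restrict B), Integrable (fun z => g (y, z)) volume :=
      ae_restrict_of_ae h1
    have h3 : ∀ᵐ y ∂(volume.restrict B), y ∈ B := ae_restrict_mem hBm
    have : NeBot (ae (volume.restrict B)) := by
      rw [ae_neBot, Ne, Measure.restrict_eq_zero]
      exact (Metric.measure_ball_pos _ _ hr).ne'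
    obtain ⟨y, hy1, hy2⟩ := (h2.and h3).exists
    simp only [hg, Set.indicator_of_mem hy2, one_mul] at hy1
    exact (integrable_indicator_iff hB'm).1 hy1
  have hae : B' =ᵐ[volume] B := by
    rw [hB', hB]
    exact sdiff_null_ae_eq_self (measure_singleton 0)
  refine ⟨hFi.congr_set_ae hae.symm, ?_⟩
  rw [← setIntegral_congr_set hae]
  rw [hge] at hle
  have hrv : 0 < r ^ d * v := by positivity
  have e1 : ∫ z in B', F z ≤ C * (4 * r) ^ (2 * ((d : ℝ) - a)) / (r ^ d * v) := by
    rw [le_div_iff₀ hrv]
    linarith
  refine e1.trans (le_of_eq ?_)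
  rw [Real.mul_rpow (by norm_num) hr.le]
  have e2 : r ^ (2 * ((d : ℝ) - a)) = r ^ ((d : ℝ) - 2 * a) * r ^ d := by
    rw [← Real.rpow_natCast r d, ← Real.rpow_add hr]
    congr 1
    ring
  rw [e2]
  field_simp

end Pool.Agent.H29.UDP.IRF
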