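import Pool.Agent.H29.UDP.EXI

/-!
# MP_47c37b: scaling limits: invariance under the lattice translations
-/

set_option autoImplicit false

open MeasureTheory SchwartzMap Filter Topology
open scoped ENNReal ContDiff InnerProductSpace

namespace Pool.Agent.H29.UDP.IVT

open Pool.Agent.H29.UDP
open Pool.Agent.H29.UDP.EXI (meas_eval multi_eq)
open Pool.Agent.H43.DPC (V S SD moment trans rot IsMAO Diag pm dualMap)
open Pool.Agent.H80.LD (Re IsField pair ml RPos Dom LocP)

theorem dualMap_cont {d : ℕ} (A : S d →L[ℝ] S d) : Continuous (dualMap A) :=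
  WeakDual.continuous_of_continuous_eval fun f => WeakDual.eval_continuous (A f)

theorem trans_app {d : ℕ} (h : V d) (f : S d) (x : V d) : trans h f x = f (x - h) := rfl

theorem moment_map_dual {d n : ℕ} (μ : Measure (SD d)) (A : S d →L[ℝ] S d) (f : Fin n → S d) :
    moment (μ.map (dualMap A)) f = moment μ (fun i => A (f i)) := by
  unfold moment
  rw [integral_map (dualMap_cont A).measurable.aemeasurable]
  · rfl
  · exact (Finset.measurable_prod _ fun i _ => meas_eval (f i)).aestronglyMeasurable

theorem ipt_neg' {d : ℕ} (δ : ℝ) (z : Fin d → ℤ) : ipt δ (-z) = -ipt δ z := by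
  ext j
  simp [ipt]

/-- (IVT) invariance under the lattice translations -/
theorem pf_IVT (hBXM : T_BXM) (hIVM : T_IVM) (hDCM : Pool.Agent.H80.LD.T_DCM)
    (hEVB : Pool.Agent.H80.LD.T_EVB) (hMAJ : Pool.Agent.H80.LD.T_MAJ)
    (hHOL : Pool.Agent.H43.DPC.T_HOL) : T_IVT := by
  intro d δ κ κ' s g b w hd hδ hκ hκ' hs hg hw ν hν z f
  obtain ⟨hD, hl⟩ := hIVM d δ κ κ' s g b w hd hδ hκ hκ' hs hg hw ν hν
  have hprob : IsProbabilityMeasure ν := hν.1
  -- one inequality
  have hle : ∀ (z : Fin d → ℤ) (n : ℕ) (f : Fin n → S d), (∀ i x, 0 ≤ f i x) →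
      moment ν (fun i => trans (ipt δ z) (f i)) ≤ moment ν f := by
    intro z n f hf
    set K : ℕ := ∑ j, (z j).natAbs with hK
    have h1 := hl n (fun i => trans (ipt δ z) (f i))
    have h2 := (hl n f).comp (tendsto_add_atTop_nat K)
    refine le_of_tendsto_of_tendsto' h1 h2 fun L => ?_
    have hz : ∀ j, |(-z) j| + (L : ℤ) ≤ ((L + K : ℕ) : ℤ) := by
      intro j
      have h3 : (z j).natAbs ≤ K := Finset.single_le_sum (f := fun j => (z j).natAbs)
        (fun _ _ => Nat.zero_le _) (Finset.mem_univ j)
      have h4 : |(-z) j| = ((z j).natAbs : ℤ) := by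
        rw [Pi.neg_apply, abs_neg, Int.natCast_natAbs]
      rw [h4]
      push_cast
      have h5 : ((z j).natAbs : ℤ) ≤ (K : ℤ) := by exact_mod_cast h3
      push_cast at h5
      linarith
    have h3 := hBXM d L (L + K) (-z) δ κ κ' s g b w hδ hκ hκ' hg hw hz n
      (fun i x => f i x) hf
    refine le_trans (le_of_eq ?_) h3
    refine integral_congr_ae (Eventually.of_forall fun φ => ?_)
    simp only [trans_app, ipt_neg', sub_eq_add_neg]
  have htt : ∀ (n : ℕ) (f : Fin n → S d),
      (fun i => trans (ipt δ (-z)) (trans (ipt δ z) (f i))) = f := by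
    intro n f
    funext i
    ext x
    simp only [trans_app, ipt_neg']
    congr 1
    abel
  have heq : ∀ (n : ℕ) (f : Fin n → S d), (∀ i x, 0 ≤ f i x) →
      moment ν (fun i => trans (ipt δ z) (f i)) = moment ν f := by
    intro n f hf
    refine le_antisymm (hle z n f hf) ?_
    have h1 := hle (-z) n (fun i => trans (ipt δ z) (f i)) fun i x => hf i _
    simp only [htt] at h1
    exact h1
  -- all test functions
  set A : S d →L[ℝ] S d := trans (ipt δ z) with hA
  have hall : ∀ (n : ℕ) (f : Fin n → S d), moment ν (fun i => A (f i)) = moment ν f := by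
    intro n f
    obtain ⟨M, hM⟩ := (hHOL d ν hD.mao).2.1 n
    have h1 := multi_eq hMAJ (M.compLinearMap fun _ => (A : S d →ₗ[ℝ] S d)) M (fun f hf => ?_) f
    · rw [MultilinearMap.compLinearMap_apply] at h1
      rw [← hM f, ← h1]
      exact (hM _).symm
    · rw [MultilinearMap.compLinearMap_apply, hM f, ← heq n f hf]
      exact hM _
  have hmao : IsMAO (ν.map (dualMap A)) := by
    intro f p hp
    have h1 := hD.mao (A f) p hp
    have h2 := (memLp_map_measure_iff (μ := ν) (f := dualMap A) (g := fun T : SD d => T f)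
      (p := p) (meas_eval f).aestronglyMeasurable
      (dualMap_cont A).measurable.aemeasurable).2 h1
    exact h2
  have hprob' : IsProbabilityMeasure (ν.map (dualMap A)) :=
    Measure.isProbabilityMeasure_map (dualMap_cont A).measurable.aemeasurable
  have hDC : Pool.Agent.H43.DPC.IsDC ν := hDCM d ν hD.mao fun f => hEVB d ν hD f
  have hfin : ν.map (dualMap A) = ν := hDC _ hprob' hmao fun n f => by
    rw [moment_map_dual, hall]
  have h1 : ∫ T : SD d, Complex.exp (Complex.I * ((T f : ℝ) : ℂ)) ∂(ν.map (dualMap A)) =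
      ∫ T : SD d, Complex.exp (Complex.I * ((T (A f) : ℝ) : ℂ)) ∂ν := by
    rw [integral_map (dualMap_cont A).measurable.aemeasurable]
    · rfl
    · have hm : Measurable fun T : SD d => Complex.exp (Complex.I * ((T f : ℝ) : ℂ)) :=
        Complex.measurable_exp.comp
          ((Complex.measurable_ofReal.comp (meas_eval f)).const_mul _)
      exact hm.aestronglyMeasurable
  rw [← h1, hfin]

end Pool.Agent.H29.UDP.IVT
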