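import Pool.Agent.H29.UDP.EXI

/-!
# MP_47c37b: scaling limits: the rows FEX, CLM, IVR, IVM, IVC
-/

set_option autoImplicit false

open MeasureTheory SchwartzMap Filter Topology
open scoped ENNReal ContDiff InnerProductSpace

namespace Pool.Agent.H29.UDP.IVX

open Pool.Agent.H29.UDP
open Pool.Agent.H29.UDP.EXI (meas_eval mom_ml' reach_good mom_map cf_map multi_eq)
open Pool.Agent.H43.DPC (V S SD moment trans rot IsMAO Diag pm Cond2 Cond3)
open Pool.Agent.H43.DPCS (TransInv Cond123 IsDPC)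
open Pool.Agent.H80.LD (Re IsField pair ml RPos Dom LocP ev)

/-- (FEX) the field as a random distribution -/
theorem pf_FEX : T_FEX := by
  intro d ι _ pos w
  refine ⟨fun φ => ∑ x, (w x * φ x) • ev (pos x), fun φ f => ?_, ?_⟩
  · have h : ∀ (s : Finset ι), (∑ x ∈ s, (w x * φ x) • ev (pos x)) f =
        ∑ x ∈ s, w x * φ x * f (pos x) := by
      intro s
      induction s using Finset.cons_induction with
      | empty => rfl
      | cons a s ha ih =>
        rw [Finset.sum_cons, Finset.sum_cons, ← ih]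
        rfl
    exact h Finset.univ
  · refine continuous_finsetSum _ fun x _ => ?_
    exact (continuous_const.mul (continuous_apply x)).smul continuous_const

/-- (CLM) limits in law of good laws are good -/
theorem pf_CLM (hLMV : T_LMV) : T_CLM := by
  intro d e ν μ hν hμ hc
  obtain ⟨hD, hl⟩ := hLMV d ν μ (fun k => ⟨(hν k).prob, (hν k).dom⟩) hμ hc
  refine ⟨hμ, hD, ?_, fun l => ?_⟩
  · intro m c F hF
    refine ge_of_tendsto' (x := atTop) (f := fun k => ∑ j, ∑ l, c j * c l *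
      ml (ν k) ((F j).map (rot (Re e)) ++ F l)) ?_ fun k => (hν k).rp m c F hF
    refine tendsto_finsetSum _ fun j _ => tendsto_finsetSum _ fun l _ => ?_
    exact (hl _).const_mul _
  · have h1 := hl (l.map (rot (Re e)))
    have h2 := hl l
    simp only [fun k => (hν k).inv l] at h1
    exact tendsto_nhds_unique h1 h2

/-- convergence of the fields in the boxes -/
theorem cvg_box (hFEX : T_FEX) {d : ℕ} {δ κ κ' s g b w : ℝ} {ν : Measure (SD d)}
    (hν : InfVol d δ κ κ' s g b w ν) : ∃ F : ∀ L : ℕ, (Bx d L → ℝ) → SD d,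
      (∀ L, IsField (bpos δ) (fun _ => w) (F L)) ∧ (∀ L, Continuous (F L)) ∧
      Cvg (fun L => (bgibbs d L δ κ κ' s g b).map (F L)) ν := by
  choose F hF hFc using fun L : ℕ => hFEX d (Bx d L) (bpos δ) (fun _ => w)
  refine ⟨F, hF, hFc, fun f => ?_⟩
  have h1 := hν.2 f
  have h2 : ∀ L, ∫ T : SD d, Complex.exp (Complex.I * ((T f : ℝ) : ℂ))
      ∂((bgibbs d L δ κ κ' s g b).map (F L)) =
      ∫ φ : Bx d L → ℝ, Complex.exp (Complex.I * ((∑ x, w * φ x * f (bpos δ x) : ℝ) : ℂ))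
        ∂(bgibbs d L δ κ κ' s g b) := fun L => cf_map _ _ _ _ (hF L) (hFc L) f
  simp only [h2]
  exact h1

/-- (IVR) the infinite volume laws belong to the class -/
theorem pf_IVR (hBXR : T_BXR) (hFEX : T_FEX) : T_IVR := by
  intro d δ κ κ' s g b w hδ hκ hκ' hs hg hw ν hν e he
  obtain ⟨F, hF, hFc, hc⟩ := cvg_box hFEX hν
  exact Reach2.lim _ ν (fun L => hBXR d L δ κ κ' s g b w hδ hκ hκ' hs hg hw e he (F L) (hF L))
    hν.1 hc

/-- (IVM) infinite volume: the moments converge -/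
theorem pf_IVM (hMSG : T_MSG) (hCLM : T_CLM) (hLMV : T_LMV) (hBXR : T_BXR)
    (hFEX : T_FEX) : T_IVM := by
  intro d δ κ κ' s g b w hd hδ hκ hκ' hs hg hw ν hν
  obtain ⟨F, hF, hFc, hc⟩ := cvg_box hFEX hν
  have he0 : (EuclideanSpace.single (⟨0, hd⟩ : Fin d) (1 : ℝ)) ∈ Mir d := Or.inl ⟨_, rfl⟩
  have hgood : ∀ L, GoodM (EuclideanSpace.single (⟨0, hd⟩ : Fin d) (1 : ℝ))
      ((bgibbs d L δ κ κ' s g b).map (F L)) := fun L =>
    reach_good hMSG hCLM (hBXR d L δ κ κ' s g b w hδ hκ hκ' hs hg hw _ he0 (F L) (hF L))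
  obtain ⟨hD, hl⟩ := hLMV d _ ν (fun L => ⟨(hgood L).prob, (hgood L).dom⟩) hν.1 hc
  refine ⟨hD, fun n f => ?_⟩
  have h1 := hl (List.ofFn f)
  simp only [← mom_ml'] at h1
  have h2 : ∀ L, moment ((bgibbs d L δ κ κ' s g b).map (F L)) f =
      ∫ φ : Bx d L → ℝ, ∏ i, ∑ x, w * φ x * f i (bpos δ x) ∂(bgibbs d L δ κ κ' s g b) :=
    fun L => mom_map _ _ _ _ (hF L) (hFc L) f
  simp only [h2] at h1
  exact h1

/-- (IVC) infinite volume: the bound for the two point function in cubes -/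
theorem pf_IVC (hCEB : T_CEB) (hIVM : T_IVM) : T_IVC := by
  intro d α hα hαd
  have hd0 : (0 : ℝ) < (d : ℝ) := lt_trans hα hαd
  have hd1 : 1 ≤ d := by
    rcases Nat.eq_zero_or_pos d with h | h
    · subst h; simp at hd0
    · exact h
  obtain ⟨A, hA, hcell⟩ := hCEB d α hα hαd
  refine ⟨A, hA, ?_⟩
  intro δ κ κ' g b w hδ hκ hκ' hg hw hLRO ν hν t y h ht h01 hsupp
  obtain ⟨hD, hl⟩ := hIVM d δ κ κ' (((d : ℝ) + α) / 2) g b w hd1 hδ hκ.le hκ' (by linarith) hg hw
    ν hν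
  refine le_of_tendsto' (hl 2 ![h, h]) fun L => ?_
  have h2 := hcell δ κ κ' g b w hδ hκ hκ' hg hw hLRO L t y (fun x => h x) ht h01 hsupp
  refine le_trans (le_of_eq ?_) h2
  refine integral_congr_ae (Eventually.of_forall fun φ => ?_)
  simp [Fin.prod_univ_two, sq]

end Pool.Agent.H29.UDP.IVX
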