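import Pool.Agent.H29.UDP.TPro
import Pool.Agent.H18.LD.LRG

/-!
# MP_47c37b: scaling limits: regularity from differences, with polynomial loss
-/

set_option autoImplicit false

open MeasureTheory SchwartzMap Filter Topology Module
open scoped ENNReal ContDiff InnerProductSpace FourierTransform NNReal

namespace Pool.Agent.H29.UDP.RG2

open Pool.Agent.H29.UDP
open Pool.Agent.H18.LD (decay_integrable cont_fourier inv_bounds cont_exp)

noncomputable section

theorem dm_div {E : Type} [AddCommGroup E] [Module ℝ E] (m : ℕ) (h : ℝ) (v : E) (s : E → ℝ)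
    (x : E) (q : ℝ) : dm m h v (fun y => s y / q) x = dm m h v s x / q := by
  unfold dm
  rw [Finset.sum_div]
  refine Finset.sum_congr rfl fun i _ => ?_
  ring

theorem dm_equiv {E F : Type} [AddCommGroup E] [Module ℝ E] [AddCommGroup F] [Module ℝ F]
    (L : E ≃ₗ[ℝ] F) (m : ℕ) (h : ℝ) (v : E) (s : E → ℝ) (y : F) :
    dm m h (L v) (fun z => s (L.symm z)) y = dm m h v s (L.symm y) := by
  unfold dm
  refine Finset.sum_congr rfl fun i _ => ?_
  show (-1) ^ i * (m.choose i : ℝ) * s (L.symm (y + ((i : ℝ) * h) • L v)) = _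
  rw [map_add, map_smul, LinearEquiv.symm_apply_apply]

/-- sequences with the rate are Cauchy -/
theorem cauchy_rate {X : Type} [NormedAddCommGroup X] [CompleteSpace X] (a : ℕ → X) (c : ℝ)
    (h : ∀ k l : ℕ, ‖a k - a l‖ ≤ c / ((min k l : ℕ) + 1 : ℝ)) : ∃ l, Tendsto a atTop (𝓝 l) := by
  refine cauchySeq_tendsto_of_complete ?_
  rw [Metric.cauchySeq_iff]
  intro ε hε
  obtain ⟨N, hN⟩ := exists_nat_gt (|c| / ε)
  refine ⟨N, fun m hm n hn => ?_⟩
  rw [dist_eq_norm]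
  refine (h m n).trans_lt ?_
  have h1 : (N : ℝ) ≤ ((min m n : ℕ) : ℝ) := by exact_mod_cast le_min hm hn
  have h2 : (0 : ℝ) < ((min m n : ℕ) : ℝ) + 1 := by positivity
  rw [div_lt_iff₀ h2]
  rw [div_lt_iff₀ hε] at hN
  have h3 := le_abs_self c
  nlinarith

section inner

variable {E : Type} [NormedAddCommGroup E] [InnerProductSpace ℝ E] [FiniteDimensional ℝ E]
  [MeasurableSpace E] [BorelSpace E]

/-- the difference of the Fourier transforms -/
theorem fourier_bound (u : E → ℝ) (hu : Continuous u) (hs : HasCompactSupport u) (ξ : E) (b : ℝ)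
    (h1 : |∫ y, u y * Real.cos (2 * Real.pi * ⟪y, ξ⟫_ℝ)| ≤ b)
    (h2 : |∫ y, u y * Real.sin (2 * Real.pi * ⟪y, ξ⟫_ℝ)| ≤ b) :
    ‖𝓕 (fun x => ((u x : ℝ) : ℂ)) ξ‖ ≤ 2 * b := by
  have hc1 : Continuous fun y : E => u y * Real.cos (2 * Real.pi * ⟪y, ξ⟫_ℝ) :=
    hu.mul (Real.continuous_cos.comp (continuous_const.mul (continuous_id.inner continuous_const)))
  have hc2 : Continuous fun y : E => u y * Real.sin (2 * Real.pi * ⟪y, ξ⟫_ℝ) :=
    hu.mul (Real.continuous_sin.comp (continuous_const.mul (continuous_id.inner continuous_const)))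
  have hi1 : Integrable fun y : E => u y * Real.cos (2 * Real.pi * ⟪y, ξ⟫_ℝ) :=
    hc1.integrable_of_hasCompactSupport hs.mul_right
  have hi2 : Integrable fun y : E => u y * Real.sin (2 * Real.pi * ⟪y, ξ⟫_ℝ) :=
    hc2.integrable_of_hasCompactSupport hs.mul_right
  have e : 𝓕 (fun x => ((u x : ℝ) : ℂ)) ξ =
      ((∫ y, u y * Real.cos (2 * Real.pi * ⟪y, ξ⟫_ℝ) : ℝ) : ℂ) -
        ((∫ y, u y * Real.sin (2 * Real.pi * ⟪y, ξ⟫_ℝ) : ℝ) : ℂ) * Complex.I := by
    rw [Real.fourier_eq']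
    rw [← integral_complex_ofReal, ← integral_complex_ofReal, ← integral_mul_const,
      ← integral_sub hi1.ofReal (hi2.ofReal.mul_const _)]
    refine integral_congr_ae (Eventually.of_forall fun y => ?_)
    simp only [smul_eq_mul]
    rw [show ((-2 * Real.pi * ⟪y, ξ⟫_ℝ : ℝ) : ℂ) = ((-(2 * Real.pi * ⟪y, ξ⟫_ℝ) : ℝ) : ℂ) by
      push_cast; ring, Complex.exp_ofReal_mul_I, Real.cos_neg, Real.sin_neg]
    push_cast
    ring
  rw [e]
  refine (norm_sub_le _ _).trans ?_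
  rw [norm_mul, Complex.norm_I, mul_one, Complex.norm_real, Complex.norm_real, Real.norm_eq_abs,
    Real.norm_eq_abs]
  linarith

/-- the inner product case -/
theorem rg2_inner (hUFD : T_UFD) (hFDC : Pool.Agent.H80.LD.T_FDC) (hLRG : Pool.Agent.H80.LD.T_LRG)
    (χ : E → ℝ) (U : Set E) (D : Finset E) (N p : ℕ) (C₀ : ℝ)
    (s : ℕ → E → ℝ) (hχ : ContDiff ℝ ∞ χ) (hχs : HasCompactSupport χ) (hU : IsOpen U)
    (hχU : tsupport χ ⊆ U) (hD : Submodule.span ℝ (D : Set E) = ⊤) (hne : D.Nonempty)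
    (hs : ∀ k, Continuous (s k))
    (hb : ∀ m : ℕ, ∃ C η : ℝ, 0 < η ∧ ∀ k, ∀ v ∈ D, ∀ h : ℝ, 0 < h → h ≤ η → ∀ x ∈ U,
      (∀ i ≤ m, x + ((i : ℝ) * h) • v ∈ U) → |dm m h v (s k) x| ≤ C * ((k : ℝ) + 1) ^ N * h ^ m)
    (hr : ∀ (l : E →L[ℝ] ℝ) (k k' : ℕ),
      |∫ y, χ y * Real.cos (l y) * (s k y - s k' y)| ≤
        C₀ * (1 + ‖l‖) ^ p / ((min k k' : ℕ) + 1 : ℝ) ∧
      |∫ y, χ y * Real.sin (l y) * (s k y - s k' y)| ≤
        C₀ * (1 + ‖l‖) ^ p / ((min k k' : ℕ) + 1 : ℝ)) :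
    ∃ (u : E → ℝ) (B : ℝ), ContDiff ℝ ∞ u ∧ (∀ k x, |χ x * s k x| ≤ B) ∧
      ∀ x, Tendsto (fun k => χ x * s k x) atTop (𝓝 (u x)) := by
  choose C η hη hb using hb
  have hC₀ : 0 ≤ C₀ := by
    have h1 := (abs_nonneg _).trans (hr 0 0 0).1
    have h2 : C₀ * (1 + ‖(0 : E →L[ℝ] ℝ)‖) ^ p / ((min 0 0 : ℕ) + 1 : ℝ) = C₀ := by simp
    linarith
  have huc : ∀ k, Continuous fun x => χ x * s k x := fun k => hχ.continuous.mul (hs k)
  have hus : ∀ k, HasCompactSupport fun x => χ x * s k x := fun k => hχs.mul_right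
  -- polynomial loss
  have hloss : ∀ M : ℕ, ∃ K : ℝ, ∀ k ξ,
      ‖ξ‖ ^ M * ‖𝓕 (fun x => ((χ x * s k x : ℝ) : ℂ)) ξ‖ ≤ K * ((k : ℝ) + 1) ^ N := by
    intro M
    obtain ⟨K, hK⟩ := hFDC E χ U D C η hχ hχs hU hχU hD hne hη M
    refine ⟨K, fun k ξ => ?_⟩
    have hq : (0 : ℝ) < ((k : ℝ) + 1) ^ N := by positivity
    have h1 := hK (fun x => s k x / ((k : ℝ) + 1) ^ N) ((hs k).div_const _).continuousOn
      (fun m v hv h hh hle x hx hall => by
        change |dm m h v (fun x => s k x / ((k : ℝ) + 1) ^ N) x| ≤ _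
        rw [dm_div, abs_div, abs_of_pos hq, div_le_iff₀ hq]
        refine (hb m k v hv h hh hle x hx hall).trans (le_of_eq ?_)
        ring) ξ
    have h2 : 𝓕 (fun x => ((χ x * (s k x / ((k : ℝ) + 1) ^ N) : ℝ) : ℂ)) ξ =
        (((((k : ℝ) + 1) ^ N)⁻¹ : ℝ) : ℂ) * 𝓕 (fun x => ((χ x * s k x : ℝ) : ℂ)) ξ := by
      rw [Real.fourier_eq', Real.fourier_eq', ← integral_const_mul]
      refine integral_congr_ae (Eventually.of_forall fun y => ?_)
      simp only [smul_eq_mul]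
      push_cast
      ring
    rw [h2, norm_mul, Complex.norm_real, Real.norm_of_nonneg (by positivity)] at h1
    rw [show ‖ξ‖ ^ M * ((((k : ℝ) + 1) ^ N)⁻¹ * ‖𝓕 (fun x => ((χ x * s k x : ℝ) : ℂ)) ξ‖) =
      (‖ξ‖ ^ M * ‖𝓕 (fun x => ((χ x * s k x : ℝ) : ℂ)) ξ‖) / ((k : ℝ) + 1) ^ N by
      field_simp, div_le_iff₀ hq] at h1
    exact h1
  -- the rate
  have hrate : ∀ k l ξ, ‖𝓕 (fun x => ((χ x * s k x : ℝ) : ℂ)) ξ -
      𝓕 (fun x => ((χ x * s l x : ℝ) : ℂ)) ξ‖ ≤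
      (2 * C₀ * (2 * Real.pi) ^ p) * (1 + ‖ξ‖) ^ p / ((min k l : ℕ) + 1 : ℝ) := by
    intro k l ξ
    have hfi : ∀ k, Integrable fun x : E => ((χ x * s k x : ℝ) : ℂ) := fun k =>
      ((huc k).integrable_of_hasCompactSupport (hus k)).ofReal
    have e1 : 𝓕 (fun x => ((χ x * s k x : ℝ) : ℂ)) ξ - 𝓕 (fun x => ((χ x * s l x : ℝ) : ℂ)) ξ =
        𝓕 (fun x => ((χ x * (s k x - s l x) : ℝ) : ℂ)) ξ := by
      have hint : ∀ k, Integrable (fun v : E =>
          Complex.exp ((↑(-2 * Real.pi * ⟪v, ξ⟫_ℝ) * Complex.I)) • ((χ v * s k v : ℝ) : ℂ)) := by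
        intro k
        refine (hfi k).norm.mono' ((cont_exp (-2 * Real.pi) ξ).aestronglyMeasurable.smul
          (hfi k).1) (Eventually.of_forall fun v => ?_)
        rw [norm_smul, Complex.norm_exp_ofReal_mul_I, one_mul]
      rw [Real.fourier_eq', Real.fourier_eq', Real.fourier_eq', ← integral_sub (hint k) (hint l)]
      refine integral_congr_ae (Eventually.of_forall fun y => ?_)
      simp only [smul_eq_mul]
      push_cast
      ring
    rw [e1]
    have hl : ‖(2 * Real.pi) • innerSL ℝ ξ‖ = 2 * Real.pi * ‖ξ‖ := by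
      rw [norm_smul, innerSL_apply_norm, Real.norm_of_nonneg (by positivity)]
    have hlv : ∀ y : E, ((2 * Real.pi) • innerSL ℝ ξ : E →L[ℝ] ℝ) y =
        2 * Real.pi * ⟪y, ξ⟫_ℝ := by
      intro y
      rw [smul_apply, innerSL_apply_apply, real_inner_comm, smul_eq_mul]
    obtain ⟨h1, h2⟩ := hr ((2 * Real.pi) • innerSL ℝ ξ) k l
    simp only [hlv, hl] at h1 h2
    have h3 := fourier_bound (fun x => χ x * (s k x - s l x))
      (hχ.continuous.mul ((hs k).sub (hs l))) hχs.mul_right ξ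
      (C₀ * (1 + 2 * Real.pi * ‖ξ‖) ^ p / ((min k l : ℕ) + 1 : ℝ))
      (by
        refine le_trans (le_of_eq ?_) h1
        congr 1
        refine integral_congr_ae (Eventually.of_forall fun y => ?_)
        simp only
        ring)
      (by
        refine le_trans (le_of_eq ?_) h2
        congr 1
        refine integral_congr_ae (Eventually.of_forall fun y => ?_)
        simp only
        ring)
    refine h3.trans ?_
    have hpi : 1 ≤ 2 * Real.pi := by linarith [Real.pi_gt_three]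
    have h4 : (1 + 2 * Real.pi * ‖ξ‖) ^ p ≤ (2 * Real.pi) ^ p * (1 + ‖ξ‖) ^ p := by
      rw [← mul_pow]
      refine pow_le_pow_left₀ (by positivity) ?_ p
      nlinarith [norm_nonneg ξ]
    have h5 : (0 : ℝ) < ((min k l : ℕ) : ℝ) + 1 := by positivity
    rw [← mul_div_assoc]
    refine div_le_div_of_nonneg_right ?_ h5.le
    calc 2 * (C₀ * (1 + 2 * Real.pi * ‖ξ‖) ^ p)
        ≤ 2 * (C₀ * ((2 * Real.pi) ^ p * (1 + ‖ξ‖) ^ p)) := by
          refine mul_le_mul_of_nonneg_left (mul_le_mul_of_nonneg_left h4 hC₀) (by norm_num)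
      _ = _ := by ring
  -- uniform decay
  have hdec := hUFD E (fun k ξ => 𝓕 (fun x => ((χ x * s k x : ℝ) : ℂ)) ξ) N p _ hloss hrate
  have hdec' := hdec
  choose CC hCC using hdec'
  -- pointwise convergence
  have hfc : ∀ k, Continuous fun x : E => ((χ x * s k x : ℝ) : ℂ) := fun k =>
    Complex.continuous_ofReal.comp (huc k)
  have hfi : ∀ k, Integrable fun x : E => ((χ x * s k x : ℝ) : ℂ) := fun k =>
    ((huc k).integrable_of_hasCompactSupport (hus k)).ofReal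
  have hgc : ∀ k, Continuous (𝓕 (fun x : E => ((χ x * s k x : ℝ) : ℂ))) := fun k =>
    cont_fourier (hfi k)
  obtain ⟨B0, hB0, hB0'⟩ := decay_integrable (E := E) CC 0
  obtain ⟨B1, hB1, hB1'⟩ := decay_integrable (E := E) CC 1
  have hI0 : ∀ k, Integrable (𝓕 (fun x : E => ((χ x * s k x : ℝ) : ℂ))) := by
    intro k
    have h := (hB0' _ (hgc k).aestronglyMeasurable (fun M ξ => hCC M k ξ)).1
    simp only [pow_zero, one_mul] at h
    exact (integrable_norm_iff (hgc k).aestronglyMeasurable).1 h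
  have hI1 : ∀ k, Integrable (fun ξ : E => ‖ξ‖ ^ 1 *
      ‖𝓕 (fun x : E => ((χ x * s k x : ℝ) : ℂ)) ξ‖) := fun k =>
    (hB1' _ (hgc k).aestronglyMeasurable (fun M ξ => hCC M k ξ)).1
  have hN0 : ∀ k, ∫ ξ, ‖𝓕 (fun x : E => ((χ x * s k x : ℝ) : ℂ)) ξ‖ ≤ B0 := by
    intro k
    have h := (hB0' _ (hgc k).aestronglyMeasurable (fun M ξ => hCC M k ξ)).2
    simpa only [pow_zero, one_mul] using h
  have hinv : ∀ k, 𝓕⁻ (𝓕 (fun x : E => ((χ x * s k x : ℝ) : ℂ))) =
      fun x : E => ((χ x * s k x : ℝ) : ℂ) := fun k =>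
    (hfc k).fourierInv_fourier_eq (hfi k) (hI0 k)
  have hbd : ∀ k x, |χ x * s k x| ≤ B0 := by
    intro k x
    have h := (inv_bounds (hI0 k) (hI1 k) x x).1
    rw [hinv k] at h
    have h2 : ‖((χ x * s k x : ℝ) : ℂ)‖ = |χ x * s k x| := by
      rw [Complex.norm_real, Real.norm_eq_abs]
    rw [← h2]
    exact h.trans (hN0 k)
  have hΦ : ∀ ξ, ∃ l, Tendsto (fun k => 𝓕 (fun x : E => ((χ x * s k x : ℝ) : ℂ)) ξ) atTop
      (𝓝 l) := fun ξ => cauchy_rate _ _ fun k l => hrate k l ξ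
  choose Φ hΦ using hΦ
  set n : ℕ := finrank ℝ E + 1 with hn
  set A : ℝ := 2 ^ (n - 1) * (CC 0 + CC n) with hA
  have hdom : Integrable (fun ξ : E => A * (1 + ‖ξ‖) ^ (-(n : ℝ))) volume := by
    refine (integrable_one_add_norm ?_).const_mul A
    rw [hn]; push_cast; linarith
  have hdomb : ∀ k (ξ : E), ‖𝓕 (fun x : E => ((χ x * s k x : ℝ) : ℂ)) ξ‖ ≤
      A * (1 + ‖ξ‖) ^ (-(n : ℝ)) := by
    intro k ξ
    have h0 : (0 : ℝ) < 1 + ‖ξ‖ := by positivity
    rw [Real.rpow_neg h0.le, Real.rpow_natCast, ← div_eq_mul_inv, le_div_iff₀ (by positivity)]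
    have h1 : (1 + ‖ξ‖) ^ n ≤ 2 ^ (n - 1) * (1 ^ n + ‖ξ‖ ^ n) :=
      add_pow_le zero_le_one (norm_nonneg ξ) n
    have h2 := hCC 0 k ξ
    have h3 := hCC n k ξ
    rw [pow_zero, one_mul] at h2
    calc ‖𝓕 (fun x : E => ((χ x * s k x : ℝ) : ℂ)) ξ‖ * (1 + ‖ξ‖) ^ n
        ≤ ‖𝓕 (fun x : E => ((χ x * s k x : ℝ) : ℂ)) ξ‖ * (2 ^ (n - 1) * (1 ^ n + ‖ξ‖ ^ n)) :=
          mul_le_mul_of_nonneg_left h1 (norm_nonneg _)
      _ = 2 ^ (n - 1) * (‖𝓕 (fun x : E => ((χ x * s k x : ℝ) : ℂ)) ξ‖ +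
          ‖ξ‖ ^ n * ‖𝓕 (fun x : E => ((χ x * s k x : ℝ) : ℂ)) ξ‖) := by
          rw [one_pow]; ring
      _ ≤ A := by
          rw [hA]
          exact mul_le_mul_of_nonneg_left (add_le_add h2 h3) (by positivity)
  have hpt : ∀ x : E, ∃ l, Tendsto (fun k => χ x * s k x) atTop (𝓝 l) := by
    intro x
    have h1 : Tendsto (fun k => 𝓕⁻ (𝓕 (fun x : E => ((χ x * s k x : ℝ) : ℂ))) x) atTop
        (𝓝 (𝓕⁻ Φ x)) := by
      simp_rw [Real.fourierInv_eq']
      refine tendsto_integral_of_dominated_convergence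
        (fun ξ : E => A * (1 + ‖ξ‖) ^ (-(n : ℝ))) (fun k => ?_) hdom (fun k => ?_) ?_
      · exact (cont_exp (2 * Real.pi) x).aestronglyMeasurable.smul (hgc k).aestronglyMeasurable
      · refine Eventually.of_forall fun v => ?_
        rw [norm_smul, Complex.norm_exp_ofReal_mul_I, one_mul]
        exact hdomb k v
      · refine Eventually.of_forall fun v => ?_
        exact (hΦ v).const_smul _
    simp_rw [hinv] at h1
    have h2 := (Complex.continuous_re.tendsto _).comp h1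
    exact ⟨_, h2⟩
  choose u' hu' using hpt
  have hu'm : Measurable u' := measurable_of_tendsto_metrizable (fun k => (huc k).measurable)
    (tendsto_pi_nhds.2 hu')
  refine hLRG E (fun k x => χ x * s k x) (tsupport χ) hχs.isCompact huc
    (fun k x hx => by rw [image_eq_zero_of_notMem_tsupport hx, zero_mul]) hdec ?_
  intro x δ hδ
  let f : ContDiffBump x := ⟨δ / 2, δ, by positivity, by linarith⟩
  refine ⟨f.normed volume, f.continuous_normed, fun y => f.nonneg_normed y, f.integral_normed,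
    fun y hy => ?_, ∫ y, u' y * f.normed volume y, ?_⟩
  · have h1 : y ∈ Function.support (f.normed volume) := hy
    rw [f.support_normed_eq] at h1
    rw [← dist_eq_norm]
    exact (Metric.mem_ball.1 h1).le
  · refine tendsto_integral_of_dominated_convergence (fun y => B0 * f.normed volume y)
      (fun k => ((huc k).mul f.continuous_normed).aestronglyMeasurable)
      (f.integrable_normed.const_mul B0) (fun k => Eventually.of_forall fun y => ?_)
      (Eventually.of_forall fun y => (hu' y).mul_const _)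
    rw [norm_mul, Real.norm_eq_abs, Real.norm_of_nonneg (f.nonneg_normed y)]
    exact mul_le_mul_of_nonneg_right (hbd k y) (f.nonneg_normed y)

end inner

/-- the case of a point -/
theorem rg2_point {E : Type} [NormedAddCommGroup E] [NormedSpace ℝ E] [MeasurableSpace E]
    [BorelSpace E] [FiniteDimensional ℝ E] [Subsingleton E] (ν : Measure E)
    [ν.IsAddHaarMeasure] (χ : E → ℝ) (p : ℕ) (C₀ : ℝ)
    (s : ℕ → E → ℝ)
    (hr : ∀ (l : E →L[ℝ] ℝ) (k k' : ℕ),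
      |∫ y, χ y * Real.cos (l y) * (s k y - s k' y) ∂ν| ≤
        C₀ * (1 + ‖l‖) ^ p / ((min k k' : ℕ) + 1 : ℝ)) :
    ∃ (u : E → ℝ) (B : ℝ), ContDiff ℝ ∞ u ∧ (∀ k x, |χ x * s k x| ≤ B) ∧
      ∀ x, Tendsto (fun k => χ x * s k x) atTop (𝓝 (u x)) := by
  set c : ℝ := ν.real Set.univ with hc
  have hfin : ν Set.univ < ⊤ := by
    have h1 : (Set.univ : Set E) = {0} := by
      ext x; simp [Subsingleton.elim x 0]
    rw [h1]
    exact isCompact_singleton.measure_lt_top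
  have hc0 : 0 < c := by
    rw [hc, Measure.real]
    refine ENNReal.toReal_pos ?_ hfin.ne
    exact (isOpen_univ.measure_pos ν Set.univ_nonempty).ne'
  have h1 : ∀ k k', |χ 0 * s k 0 - χ 0 * s k' 0| ≤ (C₀ / c) / ((min k k' : ℕ) + 1 : ℝ) := by
    intro k k'
    have h2 := hr 0 k k'
    have h3 : ∫ y, χ y * Real.cos ((0 : E →L[ℝ] ℝ) y) * (s k y - s k' y) ∂ν =
        c * (χ 0 * s k 0 - χ 0 * s k' 0) := by
      have h4 : (fun y : E => χ y * Real.cos ((0 : E →L[ℝ] ℝ) y) * (s k y - s k' y)) =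
          fun _ => (χ 0 * s k 0 - χ 0 * s k' 0) := by
        funext y
        rw [Subsingleton.elim y 0]
        simp
        ring
      rw [h4, integral_const, smul_eq_mul]
    rw [h3, abs_mul, abs_of_pos hc0] at h2
    have h5 : (1 + ‖(0 : E →L[ℝ] ℝ)‖) ^ p = 1 := by simp
    rw [h5, mul_one] at h2
    have h6 : (C₀ / c) / ((min k k' : ℕ) + 1 : ℝ) = (C₀ / ((min k k' : ℕ) + 1 : ℝ)) / c := by
      rw [div_right_comm]
    rw [h6, le_div_iff₀ hc0]
    linarith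
  obtain ⟨l, hl⟩ := cauchy_rate (fun k => χ 0 * s k 0) (C₀ / c) h1
  obtain ⟨B, hB⟩ := (hl.abs).bddAbove_range
  refine ⟨fun _ => l, B, contDiff_const, fun k x => ?_, fun x => ?_⟩
  · rw [Subsingleton.elim x 0]
    exact hB ⟨k, rfl⟩
  · rw [Subsingleton.elim x 0]
    exact hl

theorem pf_RG2 (hUFD : T_UFD) (hFDC : Pool.Agent.H80.LD.T_FDC)
    (hLRG : Pool.Agent.H80.LD.T_LRG) : T_RG2 := by
  classical
  intro E _ _ _ _ _ ν _ χ U D N p C₀ s hχ hχs hU hχU hD hs hb hr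
  rcases D.eq_empty_or_nonempty with hDe | hne
  · -- the space is a point
    have hsub : Subsingleton E := by
      rw [hDe, Finset.coe_empty, Submodule.span_empty] at hD
      exact (Submodule.subsingleton_iff ℝ).1 (subsingleton_of_bot_eq_top hD)
    exact rg2_point ν χ p C₀ s fun l k k' => (hr l k k').1
  set L : E ≃L[ℝ] EuclideanSpace ℝ (Fin (finrank ℝ E)) := toEuclidean with hL
  set χ' : EuclideanSpace ℝ (Fin (finrank ℝ E)) → ℝ := fun z => χ (L.symm z) with hχ'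
  set U' : Set (EuclideanSpace ℝ (Fin (finrank ℝ E))) := L.symm ⁻¹' U with hU'
  set s' : ℕ → EuclideanSpace ℝ (Fin (finrank ℝ E)) → ℝ := fun k z => s k (L.symm z) with hs'
  have hχ'd : ContDiff ℝ ∞ χ' := hχ.comp L.symm.contDiff
  have hχ's : HasCompactSupport χ' := hχs.comp_homeomorph L.symm.toHomeomorph
  have hU'o : IsOpen U' := hU.preimage L.symm.continuous
  have hχ'U : tsupport χ' ⊆ U' := by
    have h1 : tsupport χ' = L.symm.toHomeomorph ⁻¹' tsupport χ :=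
      tsupport_comp_eq_preimage χ L.symm.toHomeomorph
    rw [h1]
    exact Set.preimage_mono hχU
  have hD' : Submodule.span ℝ ((D.image L : Finset _) : Set (EuclideanSpace ℝ (Fin (finrank ℝ E)))) =
      ⊤ := by
    rw [Finset.coe_image]
    have h1 : (L : E → EuclideanSpace ℝ (Fin (finrank ℝ E))) '' (D : Set E) =
        (L.toLinearEquiv : E →ₗ[ℝ] EuclideanSpace ℝ (Fin (finrank ℝ E))) '' (D : Set E) := rfl
    rw [h1, Submodule.span_image, hD, Submodule.map_top, LinearEquiv.range]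
  have hs'c : ∀ k, Continuous (s' k) := fun k => (hs k).comp L.symm.continuous
  have hb' : ∀ m : ℕ, ∃ C η : ℝ, 0 < η ∧ ∀ k, ∀ w ∈ D.image L, ∀ h : ℝ, 0 < h → h ≤ η →
      ∀ x ∈ U', (∀ i ≤ m, x + ((i : ℝ) * h) • w ∈ U') →
      |dm m h w (s' k) x| ≤ C * ((k : ℝ) + 1) ^ N * h ^ m := by
    intro m
    obtain ⟨C, η, hη, hCη⟩ := hb m
    refine ⟨C, η, hη, ?_⟩
    intro k w hw h hh hle x hx hall
    obtain ⟨v, hv, rfl⟩ := Finset.mem_image.1 hw
    have h1 : dm m h (L v) (s' k) x = dm m h v (s k) (L.symm x) :=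
      dm_equiv L.toLinearEquiv m h v (s k) x
    rw [h1]
    refine hCη k v hv h hh hle _ hx fun i hi => ?_
    have h2 := hall i hi
    rw [hU', Set.mem_preimage, map_add, map_smul, ContinuousLinearEquiv.symm_apply_apply] at h2
    exact h2
  -- the measure
  have hHaar : (ν.map L).IsAddHaarMeasure := ContinuousLinearEquiv.isAddHaarMeasure_map L ν
  set c : ℝ≥0 := Measure.addHaarScalarFactor (ν.map L)
    (volume : Measure (EuclideanSpace ℝ (Fin (finrank ℝ E)))) with hc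
  have hνc : ν.map L = c • (volume : Measure (EuclideanSpace ℝ (Fin (finrank ℝ E)))) :=
    Measure.isAddLeftInvariant_eq_smul _ _
  have hc0 : 0 < (c : ℝ) := by
    have h1 : 0 < c := Measure.addHaarScalarFactor_pos_of_isAddHaarMeasure _ _
    exact_mod_cast h1
  have hint : ∀ f : E → ℝ, ∫ z, (c : ℝ) * f (L.symm z) = ∫ x, f x ∂ν := by
    intro f
    have h1 : ∫ z, f (L.symm z) ∂(ν.map L) = ∫ x, f x ∂ν := by
      have h2 := L.toHomeomorph.measurableEmbedding.integral_map (μ := ν)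
        (fun z => f (L.symm z))
      have h3 : ∀ x, f (L.symm (L.toHomeomorph x)) = f x := fun x => by
        congr 1; exact L.symm_apply_apply x
      simp_rw [h3] at h2
      exact h2
    rw [← h1, hνc, integral_smul_nnreal_measure, integral_const_mul]
    rfl
  have hC₀ : 0 ≤ C₀ := by
    have h1 := (abs_nonneg _).trans (hr 0 0 0).1
    have h2 : C₀ * (1 + ‖(0 : E →L[ℝ] ℝ)‖) ^ p / ((min 0 0 : ℕ) + 1 : ℝ) = C₀ := by simp
    linarith
  set Q : ℝ := (1 + ‖(L : E →L[ℝ] EuclideanSpace ℝ (Fin (finrank ℝ E)))‖) ^ p with hQ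
  have hbnd : ∀ (l : EuclideanSpace ℝ (Fin (finrank ℝ E)) →L[ℝ] ℝ) (k k' : ℕ) (f : E → ℝ),
      |∫ x, f x ∂ν| ≤ C₀ * (1 + ‖l.comp (L : E →L[ℝ] _)‖) ^ p / ((min k k' : ℕ) + 1 : ℝ) →
      |∫ z, f (L.symm z)| ≤
        ((c : ℝ)⁻¹ * C₀ * Q) * (1 + ‖l‖) ^ p / ((min k k' : ℕ) + 1 : ℝ) := by
    intro l k k' f h1
    have h5 : (0 : ℝ) < ((min k k' : ℕ) : ℝ) + 1 := by positivity
    rw [← hint f, integral_const_mul, abs_mul, abs_of_pos hc0] at h1
    have h2 : (1 + ‖l.comp (L : E →L[ℝ] EuclideanSpace ℝ (Fin (finrank ℝ E)))‖) ^ p ≤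
        Q * (1 + ‖l‖) ^ p := by
      rw [hQ, ← mul_pow]
      refine pow_le_pow_left₀ (by positivity) ?_ p
      have h3 := ContinuousLinearMap.opNorm_comp_le l
        (L : E →L[ℝ] EuclideanSpace ℝ (Fin (finrank ℝ E)))
      nlinarith [norm_nonneg l, norm_nonneg
        (L : E →L[ℝ] EuclideanSpace ℝ (Fin (finrank ℝ E)))]
    rw [le_div_iff₀ h5] at h1 ⊢
    have h3 : (c : ℝ) * (|∫ z, f (L.symm z)| * (((min k k' : ℕ) : ℝ) + 1)) ≤
        (c : ℝ) * (((c : ℝ)⁻¹ * C₀ * Q) * (1 + ‖l‖) ^ p) := by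
      calc (c : ℝ) * (|∫ z, f (L.symm z)| * (((min k k' : ℕ) : ℝ) + 1))
          = c * |∫ z, f (L.symm z)| * (((min k k' : ℕ) : ℝ) + 1) := by ring
        _ ≤ C₀ * (1 + ‖l.comp (L : E →L[ℝ] EuclideanSpace ℝ (Fin (finrank ℝ E)))‖) ^ p := h1
        _ ≤ C₀ * (Q * (1 + ‖l‖) ^ p) := mul_le_mul_of_nonneg_left h2 hC₀
        _ = (c : ℝ) * (((c : ℝ)⁻¹ * C₀ * Q) * (1 + ‖l‖) ^ p) := by
            field_simp
    exact le_of_mul_le_mul_left h3 hc0
  have hr' : ∀ (l : EuclideanSpace ℝ (Fin (finrank ℝ E)) →L[ℝ] ℝ) (k k' : ℕ),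
      |∫ y, χ' y * Real.cos (l y) * (s' k y - s' k' y)| ≤
        ((c : ℝ)⁻¹ * C₀ * Q) * (1 + ‖l‖) ^ p / ((min k k' : ℕ) + 1 : ℝ) ∧
      |∫ y, χ' y * Real.sin (l y) * (s' k y - s' k' y)| ≤
        ((c : ℝ)⁻¹ * C₀ * Q) * (1 + ‖l‖) ^ p / ((min k k' : ℕ) + 1 : ℝ) := by
    intro l k k'
    obtain ⟨h1, h2⟩ := hr (l.comp (L : E →L[ℝ] EuclideanSpace ℝ (Fin (finrank ℝ E)))) k k'
    constructor
    · have h3 := hbnd l k k' (fun y => χ y *
        Real.cos ((l.comp (L : E →L[ℝ] EuclideanSpace ℝ (Fin (finrank ℝ E)))) y) *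
        (s k y - s k' y)) h1
      simp only [ContinuousLinearMap.comp_apply, ContinuousLinearEquiv.coe_coe,
        ContinuousLinearEquiv.apply_symm_apply] at h3
      exact h3
    · have h3 := hbnd l k k' (fun y => χ y *
        Real.sin ((l.comp (L : E →L[ℝ] EuclideanSpace ℝ (Fin (finrank ℝ E)))) y) *
        (s k y - s k' y)) h2
      simp only [ContinuousLinearMap.comp_apply, ContinuousLinearEquiv.coe_coe,
        ContinuousLinearEquiv.apply_symm_apply] at h3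
      exact h3
  obtain ⟨u', B, hu', hB, hlim⟩ := rg2_inner hUFD hFDC hLRG χ' U' (D.image L) N p _ s' hχ'd hχ's
    hU'o hχ'U hD' (hne.image L) hs'c hb' hr'
  refine ⟨fun x => u' (L x), B, hu'.comp L.contDiff, fun k x => ?_, fun x => ?_⟩
  · have h1 := hB k (L x)
    simp only [hχ', hs', ContinuousLinearEquiv.symm_apply_apply] at h1
    exact h1
  · have h1 := hlim (L x)
    simp only [hχ', hs', ContinuousLinearEquiv.symm_apply_apply] at h1
    exact h1

end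

end Pool.Agent.H29.UDP.RG2
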