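import Pool.Agent.H29.UDP.TPro
import Pool.Agent.H7.LD.RPD

/-!
# MP_47c37b: scaling limits: differences of moments from reflection positivity
-/

set_option autoImplicit false

open MeasureTheory SchwartzMap Filter Topology
open scoped ENNReal ContDiff InnerProductSpace

namespace Pool.Agent.H29.UDP.RPD2

open Pool.Agent.H29.UDP
open Pool.Agent.H43.DPC (V S SD moment trans rot IsMAO Nn)
open Pool.Agent.H43.DPCS (TransInv RotInv transInv_of rotInv_of)
open Pool.Agent.H80.LD (Re ml RPos)
open Pool.Agent.H7.LD (trans_app rot_app Re_self Re_Re inner_Re trans_trans trans_zero rot_rot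
  trans_rot ml_comm Rt vl bf BF BF_single tr tr_val ta ta_single vl_tr bf_tr BF_tr BF_nonneg
  BF_bound exists_vl)

variable {d : ℕ}

theorem bf_symm2 (μ : Measure (SD d)) (e : V d) (hR : RInv μ e) (F G : List (Rt e)) :
    bf μ e F G = bf μ e G F := by
  unfold bf
  rw [← hR, List.map_append, List.map_map, ml_comm]
  congr 2
  conv_rhs => rw [← List.map_id (vl e F)]
  exact List.map_congr_left fun f _ => rot_rot e f

theorem BF_symm2 (μ : Measure (SD d)) (e : V d) (hR : RInv μ e) (F G : List (Rt e) →₀ ℝ) :
    BF μ e F G = BF μ e G F := by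
  have h : BF μ e = (BF μ e).flip := by
    refine Finsupp.lhom_ext fun F a => ?_
    refine Finsupp.lhom_ext fun G b => ?_
    rw [LinearMap.flip_apply, BF_single, BF_single, bf_symm2 μ e hR F G]
    ring
  conv_lhs => rw [h]
  rfl

theorem pf_RPD2 (hSGP : Pool.Agent.H80.LD.T_SGP) : T_RPD2 := by
  intro d μ _ hM hT e he hP hR A L t m h hA hL hh hmh ht
  obtain ⟨F, hF⟩ := exists_vl e (A.map (rot (Re e))) (by
    intro f hf x hx
    obtain ⟨g, hg, rfl⟩ := List.mem_map.1 hf
    have h5 : ⟪e, Re e x⟫_ℝ < 0 := hA g hg _ hx
    rw [inner_Re] at h5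
    linarith)
  obtain ⟨G, hG⟩ := exists_vl e (L.map (Pool.Agent.H43.DPC.trans ((-t) • e))) (by
    intro f hf x hx
    obtain ⟨g, hg, rfl⟩ := List.mem_map.1 hf
    have := hL g hg _ hx
    rw [inner_sub_right, inner_smul_right, real_inner_self_eq_norm_sq, he] at this
    linarith)
  have key := hSGP (List (Rt e) →₀ ℝ) (BF μ e) (ta e he) (BF_symm2 μ e hR) (BF_nonneg μ e hP)
    (by
      intro W
      have : ta e he 0 = LinearMap.id := by
        refine Finsupp.lhom_ext fun F a => ?_
        rw [ta_single, LinearMap.id_apply]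
        congr 1
        conv_rhs => rw [← List.map_id F]
        refine List.map_congr_left fun f _ => Subtype.ext ?_
        rw [tr_val e he 0 le_rfl, zero_smul, trans_zero]
        rfl
      rw [this, LinearMap.id_apply])
    (by
      intro s t' W hs ht'
      have : ta e he (s + t') = (ta e he s).comp (ta e he t') := by
        refine Finsupp.lhom_ext fun F a => ?_
        rw [LinearMap.comp_apply, ta_single, ta_single, ta_single, List.map_map]
        congr 1
        refine List.map_congr_left fun f _ => Subtype.ext ?_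
        rw [tr_val e he _ (add_nonneg hs ht'), Function.comp_apply, tr_val e he s hs,
          tr_val e he t' ht', trans_trans, add_smul]
      rw [this, LinearMap.comp_apply])
    (fun s F G hs => BF_tr μ hT e he s hs F G) (BF_bound μ hM hT e he) m t h hh hmh
    (Finsupp.single F 1) (Finsupp.single G 1)
  simp only [ta_single, BF_single, one_mul] at key
  have h1 : bf μ e F F = ml μ (A.map (rot (Re e)) ++ A) := by
    unfold bf
    rw [hF, List.map_map, ml_comm]
    congr 2
    conv_rhs => rw [← List.map_id A]
    exact List.map_congr_left fun f _ => rot_rot e f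
  have h2 : bf μ e G G = ml μ ((L.map (Pool.Agent.H43.DPC.trans ((-t) • e))).map (rot (Re e)) ++
      L.map (Pool.Agent.H43.DPC.trans ((-t) • e))) := by
    unfold bf
    rw [hG]
  rw [h1, h2] at key
  refine le_of_eq_of_le ?_ key
  congr 1
  refine Finset.sum_congr rfl fun i _ => ?_
  congr 1
  have hti : 0 ≤ t + i * h := by positivity
  unfold bf
  rw [vl_tr e he _ hti, hF, hG, List.map_map, List.map_map]
  congr 2
  · conv_lhs => rw [← List.map_id A]
    exact List.map_congr_left fun f _ => (rot_rot e f).symm
  · refine List.map_congr_left fun f _ => ?_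
    change trans (((i : ℝ) * h) • e) f = trans ((t + i * h) • e) (trans ((-t) • e) f)
    rw [trans_trans, ← add_smul, show t + (i : ℝ) * h + -t = (i : ℝ) * h by ring]

end Pool.Agent.H29.UDP.RPD2
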