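import Pool.Agent.H29.UDP.TPro
import Pool.Agent.H80.LD.CLO

/-!
# MP_47c37b: scaling limits: the bounds for the cells
-/

set_option autoImplicit false

open MeasureTheory SchwartzMap Filter Topology
open scoped ENNReal ContDiff InnerProductSpace

namespace Pool.Agent.H29.UDP.UNG

open Pool.Agent.H29.UDP
open Pool.Agent.H43.DPC (V S SD moment trans rot IsMAO Diag pm Nn cell cut box)
open Pool.Agent.H80.LD (Dom tev_meas mom_two even_le)

/-- the norm as an integral -/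
theorem Nn_pow {d : ℕ} {μ : Measure (SD d)} [IsProbabilityMeasure μ] (hM : IsMAO μ) (f : S d)
    (n : ℕ) (hn : 1 ≤ n) :
    Nn μ (2 * n) f ^ (2 * n) = ∫ T : SD d, (T f) ^ (2 * n) ∂μ := by
  have h0 : ((2 * n : ℕ) : ℝ≥0∞) ≠ 0 := by
    have : 2 * n ≠ 0 := by omega
    exact_mod_cast this
  have h1 := (hM f ((2 * n : ℕ) : ℝ≥0∞) (ENNReal.natCast_ne_top _)).eLpNorm_eq_integral_rpow_norm
    h0 (ENNReal.natCast_ne_top _)
  unfold Nn
  rw [h1, ENNReal.toReal_ofReal (Real.rpow_nonneg (integral_nonneg fun T => by positivity) _)]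
  simp only [ENNReal.toReal_natCast, Real.rpow_natCast]
  have h2 : ∫ T : SD d, ‖T f‖ ^ (2 * n) ∂μ = ∫ T : SD d, (T f) ^ (2 * n) ∂μ := by
    refine integral_congr_ae (Eventually.of_forall fun T => ?_)
    simp only [Real.norm_eq_abs]
    exact (even_two_mul n).pow_abs _
  rw [h2, Real.rpow_inv_natCast_pow (integral_nonneg fun T => (even_two_mul n).pow_nonneg _)
    (by omega)]

theorem Nn_mono {d : ℕ} {μ : Measure (SD d)} [IsProbabilityMeasure μ] (hM : IsMAO μ) (f : S d)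
    (n m : ℕ) (hnm : n ≤ m) : Nn μ n f ≤ Nn μ m f := by
  unfold Nn
  refine ENNReal.toReal_mono (hM f m (ENNReal.natCast_ne_top _)).eLpNorm_ne_top ?_
  exact eLpNorm_le_eLpNorm_of_exponent_le (by exact_mod_cast hnm) (tev_meas f).aestronglyMeasurable

/-- (UNG) the bounds for the cells -/
theorem pf_UNG (hLAT : Pool.Agent.H43.DPC.T_LAT) (hPRB : Pool.Agent.H80.LD.T_PRB) : T_UNG := by
  intro d μ _ hD a C hC n hn f
  have hM := hD.mao
  set B : ℝ := SchwartzMap.seminorm ℝ 0 0 f with hB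
  have hB0 : 0 ≤ B := apply_nonneg _ _
  have hfB : ∀ x, |f x| ≤ B := fun x => by
    rw [← Real.norm_eq_abs]; exact SchwartzMap.norm_le_seminorm ℝ f x
  set C' : ℝ := max C 0 with hC'
  have hC'0 : 0 ≤ C' := le_max_right _ _
  set Y : ℝ := ((2 * n).factorial : ℝ) * (B ^ 2 * C') ^ n with hY
  have hY0 : 0 ≤ Y := by positivity
  set Q : ℝ := Y ^ (((2 * n : ℕ) : ℝ)⁻¹) with hQ
  have hQ0 : 0 ≤ Q := Real.rpow_nonneg hY0 _
  have hQp : Q ^ (2 * n) = Y := Real.rpow_inv_natCast_pow hY0 (by omega)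
  refine ⟨Q, hQ0, ?_⟩
  intro t k ht _
  -- the cell as a test function
  let g : S d := (hLAT.compact d t ht k).toSchwartzMap (hLAT.contDiff d t k)
  have hg : ∀ x, g x = cell t k x := fun x => rfl
  have hg0 : ∀ x, 0 ≤ g x := fun x => hLAT.nonneg d t k x
  have hg1 : ∀ x, g x ≤ 1 := by
    intro x
    set K : ℕ := ∑ j, (k j).natAbs with hK
    have hk : k ∈ box d K := by
      rw [box, Fintype.mem_piFinset]
      intro j
      rw [Finset.mem_Icc]
      have h3 : (k j).natAbs ≤ K := Finset.single_le_sum (f := fun j => (k j).natAbs)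
        (fun _ _ => Nat.zero_le _) (Finset.mem_univ j)
      omega
    have h1 := hLAT.sum_le_one d t K x
    exact (Finset.single_le_sum (f := fun k => cell t k x)
      (fun k _ => hLAT.nonneg d t k x) hk).trans h1
  have hgm : moment μ ![g, g] ≤ C * t ^ (2 * ((d : ℝ) - a)) := by
    refine hC t (WithLp.toLp 2 fun j => t * (k j : ℝ)) g ht (fun x => ⟨hg0 x, hg1 x⟩)
      fun x hx j => ?_
    exact hLAT.tsupport d t ht k x (subset_tsupport _ hx) j
  have htp : 0 < t ^ ((d : ℝ) - a) := Real.rpow_pos_of_pos ht _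
  have ht2 : t ^ (2 * ((d : ℝ) - a)) = (t ^ ((d : ℝ) - a)) ^ 2 := by
    rw [mul_comm, Real.rpow_mul ht.le]
    exact_mod_cast Real.rpow_natCast _ 2
  have hgm' : ∫ T : SD d, (T g) ^ 2 ∂μ ≤ C' * (t ^ ((d : ℝ) - a)) ^ 2 := by
    rw [← mom_two, ← ht2]
    refine hgm.trans (mul_le_mul_of_nonneg_right (le_max_left _ _) (by positivity))
  have hcut : ∀ x, |cut t k f x| ≤ (B • g) x := by
    intro x
    rw [hLAT.cut_apply d t ht k f x, abs_mul]
    change _ ≤ B * g x
    have h1 : |cell t k x| = g x := abs_of_nonneg (hg0 x)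
    rw [h1, mul_comm]
    exact mul_le_mul_of_nonneg_right (hfB x) (hg0 x)
  have h1 := even_le hPRB hD (cut t k f) (B • g) hcut n
  have h2 : ∫ T : SD d, (T (B • g)) ^ 2 ∂μ = B ^ 2 * ∫ T : SD d, (T g) ^ 2 ∂μ := by
    rw [← integral_const_mul]
    refine integral_congr_ae (Eventually.of_forall fun T => ?_)
    have : T (B • g) = B * T g := by
      rw [map_smul]
      rfl
    simp only [this]
    ring
  rw [h2] at h1
  have h3 : (1 : ℝ) ≤ 2 ^ n * (n.factorial : ℝ) := by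
    have h4 : (1 : ℝ) ≤ 2 ^ n := one_le_pow₀ (by norm_num)
    have h5 : (1 : ℝ) ≤ (n.factorial : ℝ) := by exact_mod_cast n.factorial_pos
    nlinarith
  have h4 : 0 ≤ ∫ T : SD d, (T (cut t k f)) ^ (2 * n) ∂μ :=
    integral_nonneg fun T => (even_two_mul n).pow_nonneg _
  have h5 : ∫ T : SD d, (T (cut t k f)) ^ (2 * n) ∂μ ≤
      ((2 * n).factorial : ℝ) * (B ^ 2 * (C' * (t ^ ((d : ℝ) - a)) ^ 2)) ^ n := by
    refine le_trans (le_mul_of_one_le_right h4 h3) (h1.trans ?_)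
    refine mul_le_mul_of_nonneg_left (pow_le_pow_left₀ ?_ ?_ n) (by positivity)
    · exact mul_nonneg (sq_nonneg _) (integral_nonneg fun T => sq_nonneg _)
    · exact mul_le_mul_of_nonneg_left hgm' (sq_nonneg _)
  have h6 : Nn μ (2 * n) (cut t k f) ^ (2 * n) ≤ (Q * t ^ ((d : ℝ) - a)) ^ (2 * n) := by
    rw [Nn_pow hM _ n hn, mul_pow, hQp]
    refine h5.trans (le_of_eq ?_)
    rw [hY]
    rw [pow_mul (t ^ ((d : ℝ) - a)) 2 n, mul_assoc, ← mul_pow]
    ring
  have h7 : Nn μ (2 * n) (cut t k f) ≤ Q * t ^ ((d : ℝ) - a) :=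
    le_of_pow_le_pow_left₀ (by omega) (by positivity) h6
  exact (Nn_mono hM _ n (2 * n) (by omega)).trans h7

end Pool.Agent.H29.UDP.UNG
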