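import Pool.Agent.H1.UDP.PID
import Pool.Agent.H1.UDP.UFD
import Pool.Agent.H10.UDP.FRM
import Pool.Agent.H13.UDP.PO2
import Pool.Agent.H17.UDP.CEB
import Pool.Agent.H19.UDP.CHR
import Pool.Agent.H19.UDP.DIF2
import Pool.Agent.H19.UDP.DIG
import Pool.Agent.H19.UDP.DO2
import Pool.Agent.H19.UDP.FA2
import Pool.Agent.H19.UDP.RPJ
import Pool.Agent.H19.UDP.TIV
import Pool.Agent.H19.UDP.TPF
import Pool.Agent.H29.UDP.AGM
import Pool.Agent.H29.UDP.ASL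
import Pool.Agent.H29.UDP.EXI
import Pool.Agent.H29.UDP.IND
import Pool.Agent.H29.UDP.IRF
import Pool.Agent.H29.UDP.IVT
import Pool.Agent.H29.UDP.IVX
import Pool.Agent.H29.UDP.RG2
import Pool.Agent.H29.UDP.RPD2
import Pool.Agent.H29.UDP.UNG
import Pool.Agent.H35.UD.CUB
import Pool.Agent.H36.UDP.BCT
import Pool.Agent.H36.UDP.BXM
import Pool.Agent.H37.UDP.GD2
import Pool.Agent.H37.UDP.GLW
import Pool.Agent.H37.UDP.MDF
import Pool.Agent.H37.UDP.PCK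
import Pool.Agent.H37.UDP.PMC
import Pool.Agent.H43.DPC.Final
import Pool.Agent.H43.UDP.EX2
import Pool.Agent.H43.UDP.HRT
import Pool.Agent.H43.UDP.LOX
import Pool.Agent.H43.UDP.MAR
import Pool.Agent.H44.UDP.API
import Pool.Agent.H44.UDP.DI2
import Pool.Agent.H44.UDP.GEO
import Pool.Agent.H44.UDP.MRN
import Pool.Agent.H44.UDP.PRO
import Pool.Agent.H46.UDP.TRP
import Pool.Agent.H49.UDP.ABV
import Pool.Agent.H49.UDP.BXT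
import Pool.Agent.H49.UDP.PJS
import Pool.Agent.H49.UDP.SUB
import Pool.Agent.H54.UDP.MO2
import Pool.Agent.H54.UDP.TMX
import Pool.Agent.H61.UDP.STP
import Pool.Agent.H7.UDP.PJR
import Pool.Agent.H80.LD.Final2
import Pool.Agent.H80.UDP.BXR
import Pool.Agent.H80.UDP.MSG
import Pool.Agent.H86.UDP.SMB
import Pool.Agent.H89.UD.LI2
import Pool.Agent.H93.UDP.PT2
import Pool.Agent.H93.UDP.QPS
import Pool.Agent.H93.UDP.RP2
import Pool.Agent.H96.UDP.TGT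
import Pool.Agent.H96.UDP.TRC
import Pool.Agent.H97.UDP.GGR
import Pool.Agent.H97.UDP.LMV

/-!
# MP_47c37b: scaling limits: all rows together
-/

set_option autoImplicit false

namespace Pool.Agent.H29.UDP

theorem final : T_GEN ∧ T_LATT := by
  -- rows of the library H80/LD
  have hLAW : Pool.Agent.H80.LD.T_LAW := Pool.Agent.H42.LD.pf_LAW
  have hSSP : Pool.Agent.H80.LD.T_SSP := Pool.Agent.H42.LD.pf_SSP
  have hEXQ : Pool.Agent.H80.LD.T_EXQ := Pool.Agent.H67.LD.pf_EXQ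
  have hGKS : Pool.Agent.H80.LD.T_GKS := Pool.Agent.H94.LD.pf_GKS hLAW hEXQ
  have hFRP : Pool.Agent.H80.LD.T_FRP := Pool.Agent.H11.LDP.pf_FRP hLAW hSSP hEXQ
  have hLEB : Pool.Agent.H80.LD.T_LEB := Pool.Agent.H1.LD.pf_LEB hLAW hFRP
  have hST4 : Pool.Agent.H80.LD.T_ST4 := Pool.Agent.H1.LD.pf_ST4 hLAW hLEB hGKS
  have hCVG : Pool.Agent.H80.LD.T_CVG := Pool.Agent.H5.LD.pf_CVG
  have hPRB : Pool.Agent.H80.LD.T_PRB := Pool.Agent.H47.LD.pf_PRB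
  have hMAJ : Pool.Agent.H80.LD.T_MAJ := Pool.Agent.H67.LD.pf_MAJ
  have hKTS : Pool.Agent.H80.LD.T_KTS := Pool.Agent.H66.LD.pf_KTS
  have hWMC : Pool.Agent.H80.LD.T_WMC := Pool.Agent.H66.LD.pf_WMC
  have hPOL : Pool.Agent.H80.LD.T_POL := Pool.Agent.H47.LD.pf_POL
  have hEVB : Pool.Agent.H80.LD.T_EVB := Pool.Agent.H80.LD.pf_EVB hMAJ hPRB
  have hRPK : Pool.Agent.H80.LD.T_RPK := Pool.Agent.H80.LD.pf_RPK Pool.Agent.H80.LD.pf_GLS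
  have hSSC : Pool.Agent.H80.LD.T_SSC := Pool.Agent.H82.LD.pf_SSC
  have hECF : Pool.Agent.H80.LD.T_ECF := Pool.Agent.H35.LDP.pf_ECF (Pool.Agent.H95.LD.pf_CYL hSSC)
  have hDCM : Pool.Agent.H80.LD.T_DCM := Pool.Agent.H85.LD.pf_DCM hECF
  have hMOL : Pool.Agent.H80.LD.T_MOL := Pool.Agent.H95.LD.pf_MOL
  have hFDC : Pool.Agent.H80.LD.T_FDC := Pool.Agent.H18.LD.pf_FDC
  have hLRG : Pool.Agent.H80.LD.T_LRG := Pool.Agent.H18.LD.pf_LRG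
  have hGLU : Pool.Agent.H80.LD.T_GLU := Pool.Agent.H80.LD.pf_GLU
  -- rows of the library H43/DPC
  have hHOL : Pool.Agent.H43.DPC.T_HOL := Pool.Agent.H43.DPC.HOL
  have hCTN : Pool.Agent.H43.DPC.T_CTN := Pool.Agent.H43.DPC.CTN Pool.Agent.H70.DPC.CPL
  have hINV : Pool.Agent.H43.DPC.T_INV := Pool.Agent.H43.DPC.INV
  have hLATT : Pool.Agent.H43.DPC.T_LAT := Pool.Agent.H43.DPC.LAT
  have hCON : Pool.Agent.H43.DPC.T_CON := Pool.Agent.H38.DPC.CON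
  have hMCT : Pool.Agent.H43.DPC.T_MCT := Pool.Agent.H1.DPC.MCT hCTN hHOL
  have hCUT : Pool.Agent.H43.DPC.T_CUT := Pool.Agent.H43.DPC.CUT
  have hZER : Pool.Agent.H43.DPC.T_ZER := Pool.Agent.H38.DPC.ZER hINV
  -- finite systems
  have hGLW : T_GLW := Pool.Agent.H37.UDP.pf_GLW
  have hQPS : T_QPS := Pool.Agent.H93.UDP.pf_QPS
  have hRP2 : T_RP2 := Pool.Agent.H93.UDP.pf_RP2 hGLW
  have hMO2 : T_MO2 := Pool.Agent.H54.UDP.pf_MO2 hGLW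
  have hSUB : T_SUB := Pool.Agent.H49.UDP.pf_SUB hGLW
  have hGGR : T_GGR := Pool.Agent.H97.UDP.pf_GGR hGLW hLAW hGKS hST4 hCVG
  have hBXM : T_BXM := Pool.Agent.H36.UDP.pf_BXM hMO2 hSUB hGLW
  have hBCT : T_BCT := Pool.Agent.H36.UDP.pf_BCT hGLW
  -- the torus
  have hPJS : T_PJS := Pool.Agent.H49.UDP.pf_PJS
  have hRPJ : T_RPJ := Pool.Agent.H19.UDP.pf_RPJ hRPK
  have hPJR : T_PJR := Pool.Agent.H7.UDP.pf_PJR hRPJ hPJS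
  have hBXT : T_BXT := Pool.Agent.H49.UDP.pf_BXT hMO2 hSUB hPJS
  have hTRP : T_TRP := Pool.Agent.H46.UDP.pf_TRP hGLW hQPS
  have hTMX : T_TMX := Pool.Agent.H54.UDP.pf_TMX
  have hGD2 : T_GD2 := Pool.Agent.H37.UDP.pf_GD2 hGLW hTRP hTMX
  have hTIV : T_TIV := Pool.Agent.H19.UDP.pf_TIV hGD2
  have hABV : T_ABV := Pool.Agent.H49.UDP.pf_ABV hTIV
  have hCUB : T_CUB := Pool.Agent.H35.UD.pf_CUB hGLW hABV hPJS hPJR
  have hCEB : T_CEB := Pool.Agent.H17.UDP.pf_CEB hBXT hBCT hCUB hGLW hMO2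
  -- random distributions
  have hFEX : T_FEX := IVX.pf_FEX
  have hMSG : T_MSG := Pool.Agent.H80.UDP.pf_MSG hGLW hGGR hRP2 hFEX
  have hLMV : T_LMV := Pool.Agent.H97.UDP.pf_LMV hMAJ hKTS hWMC hPOL hPRB
  have hCLM : T_CLM := IVX.pf_CLM hLMV
  have hBXR : T_BXR := Pool.Agent.H80.UDP.pf_BXR hRPK
  have hIVR : T_IVR := IVX.pf_IVR hBXR hFEX
  have hIVM : T_IVM := IVX.pf_IVM hMSG hCLM hLMV hBXR hFEX
  have hIVC : T_IVC := IVX.pf_IVC hCEB hIVM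
  have hIVT : T_IVT := IVT.pf_IVT hBXM hIVM hDCM hEVB hMAJ hHOL
  have hSMB : T_SMB := Pool.Agent.H86.UDP.pf_SMB hLATT hHOL hCTN
  have hTRC : T_TRC := Pool.Agent.H96.UDP.pf_TRC hECF
  have hFRM : T_FRM := Pool.Agent.H10.UDP.pf_FRM Pool.Agent.H37.UDP.pf_PMC
  have hTGT : T_TGT := Pool.Agent.H96.UDP.TGT.pf_TGT hFRM
  have hPCK : T_PCK := Pool.Agent.H37.UDP.pf_PCK
  have hPRO : T_PRO := Pool.Agent.H44.UDP.pf_PRO hTGT hPCK hSSC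
  have hEXI : T_EXI := EXI.pf_EXI hPRO hCEB hBXM hMSG hCLM hLMV hBXR hFEX hSMB hECF hDCM hEVB
    hMAJ hHOL
  -- regularity
  have hPID : T_PID := Pool.Agent.H1.UDP.pf_PID
  have hHRT : T_HRT := Pool.Agent.H43.UDP.pf_HRT hPID
  have hMAR : T_MAR := Pool.Agent.H43.UDP.pf_MAR
  have hUFD : T_UFD := Pool.Agent.H1.UDP.pf_UFD
  have hRPD2 : T_RPD2 := RPD2.pf_RPD2 Pool.Agent.H96.LD.pf_SGP
  have hDIF2 : T_DIF2 := Pool.Agent.H19.UDP.pf_DIF2 hRPD2 hHOL hINV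
  have hAPI : T_API := Pool.Agent.H44.UDP.pf_API
  have hPMC : T_PMC := Pool.Agent.H37.UDP.pf_PMC
  have hMDF : T_MDF := Pool.Agent.H37.UDP.pf_MDF hHOL hCTN
  have hCHR : T_CHR := Pool.Agent.H19.UDP.pf_CHR hPMC hMDF hMOL hCON
  have hRG2 : T_RG2 := RG2.pf_RG2 hUFD hFDC hLRG
  have hLOX : T_LOX := Pool.Agent.H43.UDP.pf_LOX hRG2 hCHR hMDF hMOL hCON
  have hDI2 : T_DI2 := Pool.Agent.H44.UDP.pf_DI2
  have hGEO : T_GEO := Pool.Agent.H44.UDP.pf_GEO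
  have hMRN : T_MRN := Pool.Agent.H44.UDP.pf_MRN
  have hDIG : T_DIG := Pool.Agent.H19.UDP.pf_DIG hDIF2 hCTN hINV
  have hSTP : T_STP := Pool.Agent.H61.UDP.pf_STP hAPI hDIG hHRT hMAR hLOX
  have hIND : T_IND := pf_IND hAPI hDIG hLOX hDI2 hGEO hSTP hMRN
  -- conditions 2 and 3
  have hUNG : T_UNG := UNG.pf_UNG hLATT hPRB
  have hWSP : Pool.Agent.H43.DPC.T_WSP := Pool.Agent.H70.DPC.WSP hLATT
  have hSEP : Pool.Agent.H43.DPC.T_SEP := Pool.Agent.H14.DPC.SEP hLATT hWSP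
  have hGRB : Pool.Agent.H43.DPC.T_GRB := Pool.Agent.H43.DPC.GRB Pool.Agent.H43.DPC.GRA
  have hLI2 : T_LI2 := Pool.Agent.H89.UD.pf_LI2 hHOL hLATT hGRB
  have hFA2 : T_FA2 := Pool.Agent.H19.UDP.pf_FA2 hLI2 hSEP hWSP
  have hDO2 : T_DO2 := Pool.Agent.H19.UDP.pf_DO2 hLI2 hSEP hWSP
  have hPT2 : T_PT2 := Pool.Agent.H93.UDP.pf_PT2 hPRB
  have hPO2 : T_PO2 := Pool.Agent.H13.UDP.pf_PO2
  have hEX2 : T_EX2 := Pool.Agent.H43.UDP.pf_EX2 hCUT hMCT hMAJ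
  have hTPF : T_TPF := Pool.Agent.H19.UDP.pf_TPF hINV
  have hIRF : T_IRF := IRF.pf_IRF
  have hAGM : T_AGM := pf_AGM hIND hUNG hFA2 hDO2 hPO2 hEX2 hTPF hIRF hPT2 hGLU hEVB hDCM hZER
  have hGEN : T_GEN := pf_GEN hMSG hCLM hAGM
  exact ⟨hGEN, pf_LATT hGEN hIVR hIVM hIVT hIVC hLMV hSMB hTRC hPRO hEXI⟩

end Pool.Agent.H29.UDP
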