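import Pool.Agent.H43.DPC.Defs

/-!
# MP_47c37b: scaling limits of lattice fractional `φ⁴` models: the lattice models
-/

set_option autoImplicit false

open MeasureTheory Filter Topology
open scoped ENNReal InnerProductSpace

namespace Pool.Agent.H29.UDP

open Pool.Agent.H43.DPC (V)

noncomputable section

/-! ### Finite systems -/

/-- the energy of the spin configuration `φ` -/
def gH {ι : Type} [Fintype ι] (J : ι → ι → ℝ) (g b : ι → ℝ) (φ : ι → ℝ) : ℝ :=
  ∑ x, (g x * φ x ^ 4 + b x * φ x ^ 2) - 1 / 2 * ∑ x, ∑ y, J x y * φ x * φ y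

/-- the Gibbs measure: the probability measure with density proportional to `exp (-gH)` -/
def glaw {ι : Type} [Fintype ι] (J : ι → ι → ℝ) (g b : ι → ℝ) : Measure (ι → ℝ) :=
  (∫⁻ φ : ι → ℝ, ENNReal.ofReal (Real.exp (-gH J g b φ)))⁻¹ •
    volume.withDensity (fun φ : ι → ℝ => ENNReal.ofReal (Real.exp (-gH J g b φ)))

/-! ### The model in a box, free boundary conditions -/

/-- the sites of a lattice box with `(2L)^d` sites -/
abbrev Bx (d L : ℕ) : Type := Fin d → Fin (2 * L)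

/-- the position of the site `x`: `δ (x - L + 1/2)` in each coordinate -/
def bpos (δ : ℝ) {d L : ℕ} (x : Bx d L) : V d :=
  WithLp.toLp 2 (fun j => δ * (((x j : ℕ) : ℝ) - L + 1 / 2))

/-- the coupling of two sites at the distance `r > 0`: `κ r^(-2s)`, and `κ'` is added if they are
nearest neighbours -/
def bJ (δ κ κ' s : ℝ) {d L : ℕ} (x y : Bx d L) : ℝ :=
  (if x = y then 0 else κ * ‖bpos δ x - bpos δ y‖ ^ (-(2 * s))) +
    if ‖bpos δ x - bpos δ y‖ = δ then κ' else 0

/-- the Gibbs measure of the lattice `φ⁴` model in the box -/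
def bgibbs (d L : ℕ) (δ κ κ' s g b : ℝ) : Measure (Bx d L → ℝ) :=
  glaw (bJ δ κ κ' s) (fun _ => g) (fun _ => b)

/-! ### The model on the torus -/

/-- the lattice vector `δ m` -/
def ipt (δ : ℝ) {d : ℕ} (m : Fin d → ℤ) : V d := WithLp.toLp 2 (fun j => δ * (m j : ℝ))

open Classical in
/-- The coupling on the torus of side `N`: the sum over all nonzero lattice vectors `m` which are
congruent to `z` modulo `N` of `κ |δ m|^(-2s)`, and of `κ'` if `|δ m| = δ`. -/
def pJ (δ κ κ' s : ℝ) {d N : ℕ} (z : Fin d → ZMod N) : ℝ :=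
  ∑' m : Fin d → ℤ, if m ≠ 0 ∧ ∀ j, ((m j : ℤ) : ZMod N) = z j then
    κ * ‖ipt δ m‖ ^ (-(2 * s)) + (if ‖ipt δ m‖ = δ then κ' else 0) else 0

/-- the Gibbs measure of the `φ⁴` model on the torus of side `N` -/
def tgibbs (d N : ℕ) [NeZero N] (δ κ κ' s g b : ℝ) : Measure ((Fin d → ZMod N) → ℝ) :=
  glaw (fun x y => pJ δ κ κ' s (x - y)) (fun _ => g) (fun _ => b)

/-- the long range order parameter of the torus: the second moment of the mean spin -/
def tlro (d N : ℕ) [NeZero N] (δ κ κ' s g b : ℝ) : ℝ :=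
  ∫ φ : (Fin d → ZMod N) → ℝ, ((∑ x, φ x) / (N : ℝ) ^ d) ^ 2 ∂(tgibbs d N δ κ κ' s g b)

/-- there is no long range order on the tori -/
def NoLRO (d : ℕ) (δ κ κ' s g b : ℝ) : Prop :=
  ∀ ε : ℝ, 0 < ε → ∀ N₀ : ℕ, ∃ (N : ℕ) (_ : NeZero N), N₀ ≤ N ∧ Even N ∧
    tlro d N δ κ κ' s g b ≤ ε

end

end Pool.Agent.H29.UDP
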