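import Pool.Agent.H80.LD.Stmt2
import Pool.Agent.H29.UDP.Lat

/-!
# MP_47c37b: scaling limits of lattice fractional `φ⁴` models: definitions of the statement

`V d = ℝ^d`, `S d`, `SD d`, `moment`, `Diag` are in `Pool/Agent/H43/DPC/Defs.lean`, `TransInv`,
`Cond123`, `IsDPC` in `Pool/Agent/H43/DPC/Stmt.lean`, `Re`, `pair` in
`Pool/Agent/H80/LD/Stmt.lean`, `IsField` in `Pool/Agent/H80/LD/Stmt2.lean`, the lattice models in
`Pool/Agent/H29/UDP/Lat.lean`.
-/

set_option autoImplicit false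

open MeasureTheory SchwartzMap Filter Topology
open scoped ENNReal ContDiff InnerProductSpace

namespace Pool.Agent.H29.UDP

open Pool.Agent.H43.DPC (V S SD moment Diag)
open Pool.Agent.H43.DPCS (TransInv Cond123 IsDPC)
open Pool.Agent.H80.LD (Re IsField pair)

noncomputable section

/-- the mirrors: the unit vectors `e_j` and `(e_i ± e_j)/√2`, `i ≠ j` -/
def Mir (d : ℕ) : Set (V d) :=
  {e | (∃ j, e = EuclideanSpace.single j 1) ∨ ∃ i j, i ≠ j ∧ ∃ τ : ℝ, (τ = 1 ∨ τ = -1) ∧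
    e = (Real.sqrt 2)⁻¹ • (EuclideanSpace.single i 1 + τ • EuclideanSpace.single j 1)}

/-- Finite ferromagnetic `φ⁴` systems with sites in `ℝ^d`, reflection positive with respect to the
hyperplane orthogonal to `e`. The site `x` has the position `pos x` and carries the spin `φ x ∈ ℝ`
with the single spin density `exp (-(g x * s ^ 4 + b x * s ^ 2))`, `g x > 0`, `b x ∈ ℝ`; the pair
couplings `J x y` are nonnegative. The system is symmetric under the reflection `σ`, the sites on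
the hyperplane are fixed by `σ`, and the matrix `J (σ x) y`, `x`, `y` on the side
`⟪e, pos x⟫ > 0`, is positive semidefinite. -/
structure MSys (d : ℕ) (e : V d) where
  ι : Type
  [fι : Fintype ι]
  pos : ι → V d
  w : ι → ℝ
  J : ι → ι → ℝ
  g : ι → ℝ
  b : ι → ℝ
  σ : ι → ι
  w_nonneg : ∀ x, 0 ≤ w x
  J_nonneg : ∀ x y, 0 ≤ J x y
  J_symm : ∀ x y, J x y = J y x
  g_pos : ∀ x, 0 < g x
  σ_σ : ∀ x, σ (σ x) = x
  pos_σ : ∀ x, pos (σ x) = Re e (pos x)
  fix : ∀ x, ⟪e, pos x⟫_ℝ = 0 → σ x = x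
  w_σ : ∀ x, w (σ x) = w x
  g_σ : ∀ x, g (σ x) = g x
  b_σ : ∀ x, b (σ x) = b x
  J_σ : ∀ x y, J (σ x) (σ y) = J x y
  rp : ∀ c : ι → ℝ, (∀ x, ⟪e, pos x⟫_ℝ ≤ 0 → c x = 0) →
    0 ≤ ∑ x, ∑ y, c x * c y * J (σ x) y

attribute [instance] MSys.fι

/-- the Gibbs measure of the system -/
def MSys.law {d : ℕ} {e : V d} (A : MSys d e) : Measure (A.ι → ℝ) := glaw A.J A.g A.b

/-- The smallest class of laws on `S'(ℝ^d)` which contains the laws of the fields
`∑ w x * φ x * δ_(pos x)` of the finite systems and which contains with a sequence of laws also its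
limit in law (the limit is a probability measure, and the characteristic functionals converge). -/
inductive Reach2 {d : ℕ} (e : V d) : Measure (SD d) → Prop
  | fin (A : MSys d e) (F : (A.ι → ℝ) → SD d) (hF : IsField A.pos A.w F) :
      Reach2 e (A.law.map F)
  | lim (ν : ℕ → Measure (SD d)) (μ : Measure (SD d)) (hν : ∀ k, Reach2 e (ν k))
      (hμ : IsProbabilityMeasure μ)
      (h : ∀ f : S d,
        Tendsto (fun k => ∫ T : SD d, Complex.exp (Complex.I * ((T f : ℝ) : ℂ)) ∂(ν k)) atTop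
          (𝓝 (∫ T : SD d, Complex.exp (Complex.I * ((T f : ℝ) : ℂ)) ∂μ))) : Reach2 e μ

/-- convergence in law: the characteristic functionals converge -/
def Cvg {d : ℕ} (ν : ℕ → Measure (SD d)) (μ : Measure (SD d)) : Prop :=
  ∀ f : S d,
    Tendsto (fun k => ∫ T : SD d, Complex.exp (Complex.I * ((T f : ℝ) : ℂ)) ∂(ν k)) atTop
      (𝓝 (∫ T : SD d, Complex.exp (Complex.I * ((T f : ℝ) : ℂ)) ∂μ))

/-- the two point function is bounded in cubes of side `t` by `C * t ^ (2 * (d - a))` -/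
def CellB {d : ℕ} (μ : Measure (SD d)) (a C : ℝ) : Prop :=
  ∀ (t : ℝ) (y : V d) (h : S d), 0 < t → (∀ x, 0 ≤ h x ∧ h x ≤ 1) →
    (∀ x, h x ≠ 0 → ∀ j, |x j - y j| ≤ t) →
    moment μ ![h, h] ≤ C * t ^ (2 * ((d : ℝ) - a))

/-- The conclusions for the limit: `μ` is DPC; off the diagonal `0 ≤ S_n ≤` the sum over the
pairings of the products of `F (x_i - x_j)`, where `F ≥ 0` is the two point function, which is
smooth off the origin, locally integrable and at most `B * r ^ β` in mass in the balls. -/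
def Concl {d : ℕ} (μ : Measure (SD d)) (β B : ℝ) : Prop :=
  IsDPC μ ∧ ∃ F : V d → ℝ, ContDiffOn ℝ ∞ F {0}ᶜ ∧ (∀ z, z ≠ 0 → 0 ≤ F z) ∧
    (∀ r : ℝ, 0 < r → IntegrableOn F (Metric.ball 0 r) ∧
      ∫ z in Metric.ball 0 r, F z ≤ B * r ^ β) ∧
    Cond123 μ 2 (fun x => F (x 0 - x 1)) ∧
    ∀ n : ℕ, ∃ s : (Fin n → V d) → ℝ, Cond123 μ n s ∧ ∀ x : Fin n → V d, x ∉ Diag d n →
      0 ≤ s x ∧ s x ≤ pair (fun i j => F (x i - x j)) Finset.univ

/-- `ν` is the law of the field `∑ w φ_x δ_x` of the infinite volume limit of the lattice `φ⁴`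
model: the limit in law of the fields in the boxes (free boundary conditions). -/
def InfVol (d : ℕ) (δ κ κ' s g b w : ℝ) (ν : Measure (SD d)) : Prop :=
  IsProbabilityMeasure ν ∧ ∀ f : S d,
    Tendsto (fun L : ℕ => ∫ φ : Bx d L → ℝ,
      Complex.exp (Complex.I * ((∑ x, w * φ x * f (bpos δ x) : ℝ) : ℂ))
        ∂(bgibbs d L δ κ κ' s g b)) atTop
      (𝓝 (∫ T : SD d, Complex.exp (Complex.I * ((T f : ℝ) : ℂ)) ∂ν))

/-- The general theorem. -/
def T_GEN : Prop := ∀ (d : ℕ) (a : ℝ), 0 < a → 2 * a < d → ∃ A : ℝ, 0 ≤ A ∧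
  ∀ (μ : Measure (SD d)) (C : ℝ), (∀ e ∈ Mir d, Reach2 e μ) → TransInv μ → CellB μ a C →
    Concl μ (d - 2 * a) (A * C)

/-- The lattice theorem. -/
def T_LATT : Prop := ∀ (d : ℕ) (α : ℝ), 0 < α → α < d → ∃ A : ℝ, 0 ≤ A ∧
  ∀ (C : ℝ) (δ κ κ' g b w : ℕ → ℝ),
    (∀ k, 0 < δ k ∧ 0 < κ k ∧ 0 ≤ κ' k ∧ 0 < g k ∧ 0 ≤ w k ∧ w k ^ 2 ≤ C * κ k) →
    Tendsto δ atTop (𝓝 0) →
    (∀ k b', b k < b' → NoLRO d (δ k) (κ k) (κ' k) ((d + α) / 2) (g k) b') →
    (∀ k, ∃! ν : Measure (SD d), InfVol d (δ k) (κ k) (κ' k) ((d + α) / 2) (g k) (b k) (w k) ν) ∧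
    ∀ ν : ℕ → Measure (SD d),
      (∀ k, InfVol d (δ k) (κ k) (κ' k) ((d + α) / 2) (g k) (b k) (w k) (ν k)) →
      (∃ φ : ℕ → ℕ, StrictMono φ ∧ ∃ μ : Measure (SD d), IsProbabilityMeasure μ ∧
        Cvg (fun k => ν (φ k)) μ) ∧
      ∀ (φ : ℕ → ℕ) (μ : Measure (SD d)), StrictMono φ → IsProbabilityMeasure μ →
        Cvg (fun k => ν (φ k)) μ → TransInv μ ∧ Concl μ α (A * C)

end

end Pool.Agent.H29.UDP
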