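import Mathlib

/-!
# MP_47c37b: scaling limits: targets of the rows, pure analysis (light)
-/

set_option autoImplicit false

open Filter Topology

namespace Pool.Agent.H29.UDP

noncomputable section

/-- the `m`-th difference of `s` in the direction `v` with step `h` (the same as `dm` in
`Pool/Agent/H80/LD/Defs.lean`) -/
def dm {E : Type} [AddCommGroup E] [Module ℝ E] (m : ℕ) (h : ℝ) (v : E) (s : E → ℝ) (x : E) : ℝ :=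
  ∑ i ∈ Finset.range (m + 1), (-1) ^ i * (m.choose i : ℝ) * s (x + ((i : ℝ) * h) • v)

/-- (PID) `1 = T^m P(T) + (1-T)^m Q(T)`, `P = ∑ C(m-1+j,j) (1-T)^j`, `Q = ∑ C(m-1+j,j) T^j`. -/
def T_PID : Prop := ∀ m : ℕ, 1 ≤ m →
  (∀ F : ℕ → ℝ, F 0 =
    ∑ j ∈ Finset.range m, ((m - 1 + j).choose j : ℝ) *
      (∑ i ∈ Finset.range (j + 1), (-1) ^ i * (j.choose i : ℝ) * F (m + i)) +
    ∑ j ∈ Finset.range m, ((m - 1 + j).choose j : ℝ) *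
      (∑ i ∈ Finset.range (m + 1), (-1) ^ i * (m.choose i : ℝ) * F (i + j))) ∧
  ∑ j ∈ Finset.range m, ((m - 1 + j).choose j : ℝ) * 2 ^ j ≤ 8 ^ m ∧
  ∑ j ∈ Finset.range m, ((m - 1 + j).choose j : ℝ) ≤ 4 ^ m

/-- (HRT) propagation of smoothness along an analytic direction. -/
def T_HRT : Prop := ∀ (E : Type) [NormedAddCommGroup E] [NormedSpace ℝ E] (x₀ w : E)
  (r τ₀ A : ℝ) (D : Finset E) (C η : ℕ → ℝ), 0 < r → 0 < τ₀ → 0 ≤ A → 128 * A * τ₀ ≤ 1 →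
  (∀ m, 0 < η m) → ∀ p : ℕ, ∃ K η' : ℝ, 0 < η' ∧ ∀ s : E → ℝ,
  (∀ y ∈ Metric.ball x₀ r, ∀ τ : ℝ, 0 ≤ τ → τ ≤ τ₀ → ∀ (m : ℕ) (q : ℝ), 0 < q → m * q ≤ τ₀ →
    |dm m q w s (y + τ • w)| ≤ (A * (m * q)) ^ m) →
  (∀ τ : ℝ, τ₀ / 2 ≤ τ → τ ≤ τ₀ → ∀ y ∈ Metric.ball (x₀ + τ • w) r, ∀ m : ℕ, ∀ v ∈ D,
    ∀ h : ℝ, 0 < h → h ≤ η m → |dm m h v s y| ≤ C m * h ^ m) →
  ∀ v ∈ D, ∀ h : ℝ, 0 < h → h ≤ η' → ∀ y ∈ Metric.ball x₀ (r / 2),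
    |dm (2 * p) h v s y| ≤ K * h ^ p

/-- (MAR) Marchaud's inequality. -/
def T_MAR : Prop := ∀ (M p m : ℕ) (η r V : ℝ), m < p → 0 < η → 0 < r → 0 ≤ V →
  ∃ K η' : ℝ, 0 ≤ K ∧ 0 < η' ∧ ∀ (E : Type) [NormedAddCommGroup E] [NormedSpace ℝ E] (x₀ v : E)
  (s : E → ℝ) (B : ℝ), ‖v‖ ≤ V → 0 ≤ B → (∀ y ∈ Metric.ball x₀ r, |s y| ≤ B) →
  (∀ h : ℝ, 0 < h → h ≤ η → ∀ y ∈ Metric.ball x₀ r,
    (∀ i ≤ M, y + ((i : ℝ) * h) • v ∈ Metric.ball x₀ r) → |dm M h v s y| ≤ B * h ^ p) →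
  ∀ h : ℝ, 0 < h → h ≤ η' → ∀ y ∈ Metric.ball x₀ (r / 2), |dm m h v s y| ≤ K * B * h ^ m

/-- (UFD) from polynomial loss to uniform decay. -/
def T_UFD : Prop := ∀ (E : Type) [NormedAddCommGroup E] (Φ : ℕ → E → ℂ) (N p : ℕ) (C₀ : ℝ),
  (∀ M : ℕ, ∃ C : ℝ, ∀ k ξ, ‖ξ‖ ^ M * ‖Φ k ξ‖ ≤ C * ((k : ℝ) + 1) ^ N) →
  (∀ k l ξ, ‖Φ k ξ - Φ l ξ‖ ≤ C₀ * (1 + ‖ξ‖) ^ p / ((min k l : ℕ) + 1 : ℝ)) →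
  ∀ M : ℕ, ∃ C : ℝ, ∀ k ξ, ‖ξ‖ ^ M * ‖Φ k ξ‖ ≤ C

end

end Pool.Agent.H29.UDP
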