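import Pool.Agent.H29.UDP.Lat

/-!
# MP_47c37b: scaling limits: targets of the rows, finite systems, box and torus (light)
-/

set_option autoImplicit false

open MeasureTheory Filter Topology
open scoped ENNReal InnerProductSpace

namespace Pool.Agent.H29.UDP

open Pool.Agent.H43.DPC (V)

noncomputable section

/-! ### Finite systems -/

/-- (GLW) the Gibbs measure. -/
def T_GLW : Prop := ∀ (ι : Type) [Fintype ι] (J : ι → ι → ℝ) (g b : ι → ℝ), (∀ x, 0 < g x) →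
  (∀ C : ℝ, Integrable (fun φ : ι → ℝ => Real.exp (C * ∑ x, φ x ^ 2 - gH J g b φ))) ∧
  0 < ∫ φ : ι → ℝ, Real.exp (-gH J g b φ) ∧ IsProbabilityMeasure (glaw J g b) ∧
  (∀ F : (ι → ℝ) → ℝ, ∫ φ, F φ ∂(glaw J g b) =
    (∫ φ, F φ * Real.exp (-gH J g b φ)) / ∫ φ : ι → ℝ, Real.exp (-gH J g b φ)) ∧
  (∀ (F : (ι → ℝ) → ℝ) (C : ℝ), Continuous F →
    (∀ φ, |F φ| ≤ C * Real.exp (C * ∑ x, φ x ^ 2)) → Integrable F (glaw J g b))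

/-- (MO2) the second Griffiths inequality: the correlations increase with the couplings. -/
def T_MO2 : Prop := ∀ (ι : Type) [Fintype ι] (J J' : ι → ι → ℝ) (g b b' : ι → ℝ),
  (∀ x, 0 < g x) → (∀ x y, 0 ≤ J x y) → (∀ x y, J x y ≤ J' x y) → (∀ x, b' x ≤ b x) →
  ∀ (n : ℕ) (c : Fin n → ι → ℝ), (∀ i x, 0 ≤ c i x) →
    ∫ φ : ι → ℝ, ∏ i, ∑ x, c i x * φ x ∂(glaw J g b) ≤
      ∫ φ : ι → ℝ, ∏ i, ∑ x, c i x * φ x ∂(glaw J' g b')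

/-- (SUB) a system with additional decoupled sites. -/
def T_SUB : Prop := ∀ (ι ι' : Type) [Fintype ι] [Fintype ι'] (e : ι → ι')
  (J : ι → ι → ℝ) (J' : ι' → ι' → ℝ) (g b : ι → ℝ) (g' b' : ι' → ℝ), Function.Injective e →
  (∀ x, 0 < g' x) → (∀ x y, J' (e x) (e y) = J x y) →
  (∀ x y, (x ∉ Set.range e ∨ y ∉ Set.range e) → J' x y = 0) →
  (∀ x, g' (e x) = g x) → (∀ x, b' (e x) = b x) →
  (glaw J' g' b').map (fun φ x => φ (e x)) = glaw J g b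

/-- (QPS) the kernel `exp (∑ K ψ ψ')` is positive semidefinite. -/
def T_QPS : Prop := ∀ (P : Type) [Fintype P] (K : P → P → ℝ), (∀ x y, K x y = K y x) →
  (∀ c : P → ℝ, 0 ≤ ∑ x, ∑ y, c x * c y * K x y) → ∀ (A B : (P → ℝ) → ℝ) (C c : ℝ), 0 < c →
  Measurable A → Measurable B → (∀ ψ, |A ψ| ≤ C * Real.exp (-(c * ∑ x, ψ x ^ 4))) →
  (∀ ψ, |B ψ| ≤ C * Real.exp (-(c * ∑ x, ψ x ^ 4))) →
  Integrable (fun z : (P → ℝ) × (P → ℝ) =>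
    A z.1 * B z.2 * Real.exp (∑ x, ∑ y, K x y * z.1 x * z.2 y)) ∧
  0 ≤ ∫ z : (P → ℝ) × (P → ℝ), A z.1 * A z.2 * Real.exp (∑ x, ∑ y, K x y * z.1 x * z.2 y) ∧
  (∫ z : (P → ℝ) × (P → ℝ), A z.1 * B z.2 * Real.exp (∑ x, ∑ y, K x y * z.1 x * z.2 y)) ^ 2 ≤
    (∫ z : (P → ℝ) × (P → ℝ), A z.1 * A z.2 * Real.exp (∑ x, ∑ y, K x y * z.1 x * z.2 y)) *
    ∫ z : (P → ℝ) × (P → ℝ), B z.1 * B z.2 * Real.exp (∑ x, ∑ y, K x y * z.1 x * z.2 y)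

/-- (RP2) reflection positivity; sites on the mirror are allowed. -/
def T_RP2 : Prop := ∀ (ι : Type) [Fintype ι] (J : ι → ι → ℝ) (g b : ι → ℝ) (σ : ι → ι)
  (P : ι → Prop), (∀ x, 0 < g x) → (∀ x, σ (σ x) = x) → (∀ x, g (σ x) = g x) →
  (∀ x, b (σ x) = b x) → (∀ x y, J (σ x) (σ y) = J x y) → (∀ x y, J x y = J y x) →
  (∀ x, P x → ¬ P (σ x)) → (∀ x, P x ∨ P (σ x) ∨ σ x = x) →
  (∀ c : ι → ℝ, (∀ x, ¬ P x → c x = 0) → 0 ≤ ∑ x, ∑ y, c x * c y * J (σ x) y) →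
  ∀ (m : ℕ) (c : Fin m → ℝ) (F : Fin m → List (ι → ℝ)),
    (∀ j, ∀ a ∈ F j, ∀ x, ¬ P x → a x = 0) →
    0 ≤ ∑ j, ∑ l, c j * c l * ∫ φ : ι → ℝ, ((F j).map (fun a => ∑ x, a x * φ (σ x))).prod *
      ((F l).map (fun a => ∑ x, a x * φ x)).prod ∂(glaw J g b)

/-! ### Boxes -/

/-- (BXM) the correlations increase with the box. -/
def T_BXM : Prop := ∀ (d L L' : ℕ) (z : Fin d → ℤ) (δ κ κ' s g b w : ℝ), 0 < δ → 0 ≤ κ →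
  0 ≤ κ' → 0 < g → 0 ≤ w → (∀ j, |z j| + L ≤ L') → ∀ (n : ℕ) (f : Fin n → V d → ℝ),
  (∀ i x, 0 ≤ f i x) →
    ∫ φ : Bx d L → ℝ, ∏ i, ∑ x, w * φ x * f i (bpos δ x + ipt δ z) ∂(bgibbs d L δ κ κ' s g b) ≤
    ∫ φ : Bx d L' → ℝ, ∏ i, ∑ x, w * φ x * f i (bpos δ x) ∂(bgibbs d L' δ κ κ' s g b)

/-- (BCT) continuity in `b`. -/
def T_BCT : Prop := ∀ (d L : ℕ) (δ κ κ' s g b : ℝ), 0 < g → ∀ c : Bx d L → ℝ,
  Tendsto (fun b' => ∫ φ : Bx d L → ℝ, (∑ x, c x * φ x) ^ 2 ∂(bgibbs d L δ κ κ' s g b')) (𝓝 b)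
    (𝓝 (∫ φ : Bx d L → ℝ, (∑ x, c x * φ x) ^ 2 ∂(bgibbs d L δ κ κ' s g b)))

/-- (BXT) the box is dominated by the torus. -/
def T_BXT : Prop := ∀ (d L N : ℕ) [NeZero N] (δ κ κ' s g b : ℝ), 2 * L ≤ N → 0 < δ → 0 ≤ κ →
  0 ≤ κ' → (d : ℝ) < 2 * s → 0 < g → ∀ c : Bx d L → ℝ, (∀ x, 0 ≤ c x) →
    ∫ φ : Bx d L → ℝ, (∑ x, c x * φ x) ^ 2 ∂(bgibbs d L δ κ κ' s g b) ≤
    ∫ φ : (Fin d → ZMod N) → ℝ, (∑ x : Bx d L, c x * φ (fun j => ((x j : ℕ) : ZMod N))) ^ 2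
      ∂(tgibbs d N δ κ κ' s g b)

/-! ### The torus: abstract couplings -/

/-- couplings on the torus: nonnegative, symmetric, reflection positive with respect to the
reflection `x_j ↦ -1 - x_j`, for the side `x_j ∈ {0, .., N/2 - 1}` -/
structure TorJ (d N : ℕ) [NeZero N] (J : (Fin d → ZMod N) → ℝ) : Prop where
  nonneg : ∀ z, 0 ≤ J z
  flip : ∀ (j : Fin d) (z : Fin d → ZMod N), J (Function.update z j (-z j)) = J z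
  rp : ∀ (j : Fin d) (v : (Fin d → ZMod N) → ℝ), (∀ x, N ≤ 2 * (x j).val → v x = 0) →
    0 ≤ ∑ x, ∑ y, v x * v y * J (fun i => if i = j then x i + y i + 1 else x i - y i)

/-- the Gibbs measure on the torus -/
def tlaw {d N : ℕ} [NeZero N] (J : (Fin d → ZMod N) → ℝ) (g b : ℝ) :
    Measure ((Fin d → ZMod N) → ℝ) :=
  glaw (fun x y => J (x - y)) (fun _ => g) (fun _ => b)

/-- the operator `(L h)(x) = ∑ J (x - y) (h x - h y)` -/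
def Lh {d N : ℕ} [NeZero N] (J : (Fin d → ZMod N) → ℝ) (h : (Fin d → ZMod N) → ℝ)
    (x : Fin d → ZMod N) : ℝ := ∑ y, J (x - y) * (h x - h y)

/-- the partition function of the field `φ + h` -/
def Zt {d N : ℕ} [NeZero N] (J : (Fin d → ZMod N) → ℝ) (g b : ℝ) (h : (Fin d → ZMod N) → ℝ) : ℝ :=
  ∫ φ : (Fin d → ZMod N) → ℝ, Real.exp (-gH (fun x y => J (x - y)) (fun _ => g) (fun _ => b) φ -
    ∑ x, φ x * Lh J h x - 1 / 2 * ∑ x, h x * Lh J h x)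

/-- the reflection between `c - 1` and `c` in the direction `j` -/
def rfl' {d N : ℕ} (j : Fin d) (c : ZMod N) (x : Fin d → ZMod N) : Fin d → ZMod N :=
  Function.update x j (2 * c - 1 - x j)

/-- the folding to the side `x_j ∈ {c, .., c + N/2 - 1}` -/
def fdp {d N : ℕ} (j : Fin d) (c : ZMod N) (x : Fin d → ZMod N) : Fin d → ZMod N :=
  if N ≤ 2 * (x j - c).val then rfl' j c x else x

/-- the folding to the other side -/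
def fdm {d N : ℕ} (j : Fin d) (c : ZMod N) (x : Fin d → ZMod N) : Fin d → ZMod N :=
  if N ≤ 2 * (x j - c).val then x else rfl' j c x

/-- (TRP) reflection positivity for the partition function of the field `φ + h`. -/
def T_TRP : Prop := ∀ (d N : ℕ) [NeZero N], Even N → ∀ J : (Fin d → ZMod N) → ℝ, TorJ d N J →
  ∀ g b : ℝ, 0 < g → ∀ (h : (Fin d → ZMod N) → ℝ) (j : Fin d) (c : ZMod N),
    Zt J g b h ^ 2 ≤ Zt J g b (fun x => h (fdp j c x)) * Zt J g b (fun x => h (fdm j c x))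

/-- (TMX) the maximum is attained at the constants. -/
def T_TMX : Prop := ∀ (d N : ℕ) [NeZero N], Even N → ∀ Z : ((Fin d → ZMod N) → ℝ) → ℝ,
  (∀ h, 0 ≤ Z h) → (∀ (h : (Fin d → ZMod N) → ℝ) (j : Fin d) (c : ZMod N),
    Z h ^ 2 ≤ Z (fun x => h (fdp j c x)) * Z (fun x => h (fdm j c x))) →
  (∀ u : ℝ, Z (fun _ => u) = Z (fun _ => 0)) → ∀ h, Z h ≤ Z (fun _ => 0)

/-- (GD2) the infrared bound. -/
def T_GD2 : Prop := ∀ (d N : ℕ) [NeZero N], Even N → ∀ J : (Fin d → ZMod N) → ℝ, TorJ d N J →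
  ∀ g b : ℝ, 0 < g → ∀ h : (Fin d → ZMod N) → ℝ,
    ∫ φ, (∑ x, φ x * Lh J h x) ^ 2 ∂(tlaw J g b) ≤ ∑ x, h x * Lh J h x

/-- (TIV) the infrared bound, dual form. -/
def T_TIV : Prop := ∀ (d N : ℕ) [NeZero N], Even N → ∀ J : (Fin d → ZMod N) → ℝ, TorJ d N J →
  (∀ z, z ≠ 0 → 0 < J z) → ∀ g b : ℝ, 0 < g → ∀ (f : (Fin d → ZMod N) → ℝ) (K : ℝ), 0 ≤ K →
  ∑ x, f x = 0 → (∀ h : (Fin d → ZMod N) → ℝ, (∑ x, f x * h x) ^ 2 ≤ K * ∑ x, h x * Lh J h x) →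
    ∫ φ, (∑ x, f x * φ x) ^ 2 ∂(tlaw J g b) ≤ K

/-- (ABV) the difference of two averages. -/
def T_ABV : Prop := ∀ (d N : ℕ) [NeZero N], Even N → ∀ J : (Fin d → ZMod N) → ℝ, TorJ d N J →
  (∀ z, z ≠ 0 → 0 < J z) → ∀ g b : ℝ, 0 < g → ∀ (A B : Finset (Fin d → ZMod N)) (q : ℝ),
  A.Nonempty → B.Nonempty → 0 < q → (∀ x ∈ A, ∀ y ∈ B, x ≠ y → q ≤ J (x - y)) →
    ∫ φ : (Fin d → ZMod N) → ℝ, ((∑ x ∈ A, φ x) / A.card - (∑ x ∈ B, φ x) / B.card) ^ 2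
      ∂(tlaw J g b) ≤ 2 / (q * A.card * B.card)

/-! ### The torus: the couplings `pJ` -/

/-- the reflection of the `j`-th coordinate -/
def fl {d : ℕ} (j : Fin d) (x : V d) : V d := WithLp.toLp 2 (fun i => if i = j then -x i else x i)

/-- (RPJ) the power law is reflection positive (from `T_RPK` of `H80/LD`). -/
def T_RPJ : Prop := ∀ (d : ℕ) (j : Fin d) (s : ℝ), (d : ℝ) ≤ 2 * s →
  ∀ (ι : Type) [Fintype ι] (x : ι → V d) (c : ι → ℝ), (∀ i, 0 < x i j) →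
    0 ≤ ∑ i, ∑ l, c i * c l * ‖fl j (x i) - x l‖ ^ (-(2 * s))

/-- (PJS) elementary properties of the periodised coupling. -/
def T_PJS : Prop := ∀ (d N : ℕ) [NeZero N] (δ κ κ' s : ℝ), 0 < δ → 0 ≤ κ → 0 ≤ κ' →
  (d : ℝ) < 2 * s →
  (Summable fun m : Fin d → ℤ => if m ≠ 0 then
    κ * ‖ipt δ m‖ ^ (-(2 * s)) + (if ‖ipt δ m‖ = δ then κ' else 0) else 0) ∧
  (∀ z : Fin d → ZMod N, 0 ≤ pJ δ κ κ' s z) ∧
  (∀ (j : Fin d) (z : Fin d → ZMod N),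
    pJ δ κ κ' s (Function.update z j (-z j)) = pJ δ κ κ' s z) ∧
  ∀ m : Fin d → ℤ, m ≠ 0 →
    κ * ‖ipt δ m‖ ^ (-(2 * s)) + (if ‖ipt δ m‖ = δ then κ' else 0) ≤
      pJ δ κ κ' s (fun j => ((m j : ℤ) : ZMod N))

/-- (PJR) the periodised coupling is reflection positive. -/
def T_PJR : Prop := ∀ (d N : ℕ) [NeZero N] (δ κ κ' s : ℝ), Even N → 0 < δ → 0 ≤ κ → 0 ≤ κ' →
  (d : ℝ) < 2 * s → TorJ d N (pJ δ κ κ' s)

/-- the cube with `ℓ^d` sites and corner `y` -/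
def cub {d N : ℕ} [NeZero N] (y : Fin d → ZMod N) (l : ℕ) : Finset (Fin d → ZMod N) :=
  Finset.univ.filter fun x => ∀ j, (x j - y j).val < l

/-- (CUB) the second moment of the sum over a cube. -/
def T_CUB : Prop := ∀ (d : ℕ) (α : ℝ), 0 < α → α < d → ∃ A : ℝ, 0 ≤ A ∧
  ∀ (N : ℕ) [NeZero N] (δ κ κ' g b : ℝ), Even N → 0 < δ → 0 < κ → 0 ≤ κ' → 0 < g →
  ∀ (y : Fin d → ZMod N) (l : ℕ), 1 ≤ l → l ≤ N →
    ∫ φ : (Fin d → ZMod N) → ℝ, (∑ x ∈ cub y l, φ x) ^ 2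
      ∂(tgibbs d N δ κ κ' ((d + α) / 2) g b) ≤
    A / κ * (δ * l) ^ ((d : ℝ) + α) + 2 * (l : ℝ) ^ (2 * d) *
      tlro d N δ κ κ' ((d + α) / 2) g b

/-- (CEB) the bound for the field in the box. -/
def T_CEB : Prop := ∀ (d : ℕ) (α : ℝ), 0 < α → α < d → ∃ A : ℝ, 0 ≤ A ∧
  ∀ (δ κ κ' g b w : ℝ), 0 < δ → 0 < κ → 0 ≤ κ' → 0 < g → 0 ≤ w →
  (∀ b', b < b' → NoLRO d δ κ κ' ((d + α) / 2) g b') →
  ∀ (L : ℕ) (t : ℝ) (y : V d) (h : V d → ℝ), 0 < t → (∀ x, 0 ≤ h x ∧ h x ≤ 1) →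
  (∀ x, h x ≠ 0 → ∀ j, |x j - y j| ≤ t) →
    ∫ φ : Bx d L → ℝ, (∑ x, w * φ x * h (bpos δ x)) ^ 2
      ∂(bgibbs d L δ κ κ' ((d + α) / 2) g b) ≤ A * (w ^ 2 / κ) * (max t δ) ^ ((d : ℝ) + α)

end

end Pool.Agent.H29.UDP
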