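import Pool.Agent.H80.LD.Targets2
import Pool.Agent.H43.DPC.Targets
import Pool.Agent.H29.UDP.Stmt
import Pool.Agent.H29.UDP.TAna
import Pool.Agent.H29.UDP.TLat

/-!
# MP_47c37b: scaling limits: targets of the rows, random distributions
-/

set_option autoImplicit false

open MeasureTheory SchwartzMap Filter Topology
open scoped ENNReal ContDiff InnerProductSpace FourierTransform

namespace Pool.Agent.H29.UDP

open Pool.Agent.H43.DPC (V S SD moment trans rot dualMap IsMAO IsDC Diag Nn pm cell cut box sepBox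
  Cond2 Cond3)
open Pool.Agent.H43.DPCS (TransInv Cond123 IsDPC)
open Pool.Agent.H80.LD (Re IsField pair ml RPos Dom LocP)

noncomputable section

/-! ### Definitions -/

/-- the moments are invariant under the reflection -/
def RInv {d : ℕ} (μ : Measure (SD d)) (e : V d) : Prop :=
  ∀ l : List (S d), ml μ (l.map (rot (Re e))) = ml μ l

/-- the properties which survive limits in law -/
structure GoodM {d : ℕ} (e : V d) (μ : Measure (SD d)) : Prop where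
  prob : IsProbabilityMeasure μ
  dom : Dom μ
  rp : RPos μ e
  inv : RInv μ e

/-- the norms of the parts of the test functions in the cells are at most `C t^(d-a)` -/
def Uni {d : ℕ} (μ : Measure (SD d)) (a : ℝ) : Prop :=
  ∀ n : ℕ, 1 ≤ n → ∀ f : S d, ∃ C : ℝ, 0 ≤ C ∧ ∀ (t : ℝ) (k : Fin d → ℤ), 0 < t → t ≤ 1 →
    Nn μ n (cut t k f) ≤ C * t ^ ((d : ℝ) - a)

/-- approximate identities -/
structure Api {d : ℕ} (ρ : ℕ → S d) : Prop where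
  nonneg : ∀ k x, 0 ≤ ρ k x
  int : ∀ k, ∫ x, ρ k x = 1
  supp : ∀ k x, ρ k x ≠ 0 → ‖x‖ ≤ 1 / ((k : ℝ) + 1)
  grow : ∀ m : ℕ, ∃ (C : ℝ) (N : ℕ), ∀ k, pm m (ρ k) ≤ C * ((k : ℝ) + 1) ^ N
  rate : ∀ m : ℕ, ∃ C : ℝ, ∀ (k : ℕ) (f h : S d), (∀ x, h x = ∫ y, f y * ρ k (x - y)) →
    pm m (h - f) ≤ C * pm (m + 1) f / ((k : ℝ) + 1)

/-- the mollified moments -/
def mm {d : ℕ} (μ : Measure (SD d)) (ρ : S d) (n : ℕ) (y : Fin n → V d) : ℝ :=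
  moment μ (fun j => trans (y j) ρ)

/-- the vector `e` on the group `R` of points, `0` on the others -/
def grp {d n : ℕ} (R : Finset (Fin n)) (e : V d) : Fin n → V d := fun j => if j ∈ R then e else 0

/-- the group `R` is separated from the others by the hyperplane `⟪e, x⟫ = c`, with gap `δ` -/
def Spt {d n : ℕ} (x : Fin n → V d) (R : Finset (Fin n)) (e : V d) (c δ : ℝ) : Prop :=
  (∀ j ∉ R, ⟪e, x j⟫_ℝ ≤ c - δ) ∧ ∀ j ∈ R, c + δ ≤ ⟪e, x j⟫_ℝ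

/-- a list of the mirrors -/
def mv {d : ℕ} : Fin d ⊕ (Fin d × Fin d × Bool) → V d
  | Sum.inl j => EuclideanSpace.single j 1
  | Sum.inr (i, j, τ) =>
    (Real.sqrt 2)⁻¹ • (EuclideanSpace.single i 1 + (if τ then (1 : ℝ) else -1) •
      EuclideanSpace.single j 1)

/-- the proper ones -/
def mok {d : ℕ} : Fin d ⊕ (Fin d × Fin d × Bool) → Prop
  | Sum.inl _ => True
  | Sum.inr (i, j, _) => i ≠ j

open Classical in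
/-- the coincidences of a configuration -/
def co {d n : ℕ} (x : Fin n → V d) : Finset (Fin n × Fin n × (Fin d ⊕ (Fin d × Fin d × Bool))) :=
  Finset.univ.filter fun p => p.1 ≠ p.2.1 ∧ mok p.2.2 ∧ ⟪mv p.2.2, x p.1 - x p.2.1⟫_ℝ = 0

/-! ### Regularity -/

/-- (RPD2) as `T_RPD` of `H80/LD`, with `RInv` instead of the rotations. -/
def T_RPD2 : Prop := ∀ (d : ℕ) (μ : Measure (SD d)) [IsProbabilityMeasure μ], IsMAO μ →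
  TransInv μ → ∀ e : V d, ‖e‖ = 1 → RPos μ e → RInv μ e → ∀ (A L : List (S d)) (t : ℝ) (m : ℕ)
  (h : ℝ), (∀ f ∈ A, ∀ x, f x ≠ 0 → ⟪e, x⟫_ℝ < 0) → (∀ f ∈ L, ∀ x, f x ≠ 0 → t < ⟪e, x⟫_ℝ) →
  0 < h → m * h ≤ t → 0 < t →
    |∑ i ∈ Finset.range (m + 1), (-1) ^ i * (m.choose i : ℝ) *
      ml μ (A ++ L.map (trans (((i : ℝ) * h) • e)))| ≤
    (2 * m * h / t) ^ m * (Real.sqrt (ml μ (A.map (rot (Re e)) ++ A)) *
      Real.sqrt (ml μ ((L.map (trans ((-t) • e))).map (rot (Re e)) ++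
        L.map (trans ((-t) • e)))))

/-- (DIF2) differences of the moments. -/
def T_DIF2 : Prop := ∀ (d : ℕ) (μ : Measure (SD d)) [IsProbabilityMeasure μ], IsMAO μ →
  TransInv μ → ∀ e : V d, ‖e‖ = 1 → RPos μ e → RInv μ e → ∀ (n m : ℕ) (R : Finset (Fin n))
  (f : Fin n → S d) (c t h : ℝ), (∀ i ∉ R, ∀ x, f i x ≠ 0 → ⟪e, x⟫_ℝ < c) →
  (∀ i ∈ R, ∀ x, f i x ≠ 0 → c + t < ⟪e, x⟫_ℝ) → 0 < h → m * h ≤ t → 0 < t →
    |∑ i ∈ Finset.range (m + 1), (-1) ^ i * (m.choose i : ℝ) *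
      moment μ (fun j => if j ∈ R then trans (((i : ℝ) * h) • e) (f j) else f j)| ≤
    (2 * m * h / t) ^ m * ∏ i, Nn μ (2 * n) (f i)

/-- (API) approximate identities exist. -/
def T_API : Prop := ∀ d : ℕ, ∃ ρ : ℕ → S d, Api ρ

/-- (PMC) seminorms of cut off waves. -/
def T_PMC : Prop := ∀ (d : ℕ) (χ : V d → ℝ), ContDiff ℝ ∞ χ → HasCompactSupport χ →
  ∀ m : ℕ, ∃ C : ℝ, 0 ≤ C ∧ ∀ (l : V d →L[ℝ] ℝ), ∃ f g : S d,
    (∀ x, f x = χ x * Real.cos (l x)) ∧ (∀ x, g x = χ x * Real.sin (l x)) ∧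
    pm m f ≤ C * (1 + ‖l‖) ^ m ∧ pm m g ≤ C * (1 + ‖l‖) ^ m

/-- (MDF) differences of the moments of mollified functions. -/
def T_MDF : Prop := ∀ (d : ℕ) (μ : Measure (SD d)) [IsProbabilityMeasure μ], IsMAO μ →
  ∀ (ρ : ℕ → S d), Api ρ → ∀ n : ℕ, ∃ (C : ℝ) (m : ℕ), 0 ≤ C ∧ ∀ (k l : ℕ)
  (f h h' : Fin n → S d), (∀ j x, h j x = ∫ y, f j y * ρ k (x - y)) →
  (∀ j x, h' j x = ∫ y, f j y * ρ l (x - y)) →
    |moment μ h - moment μ h'| ≤ C * (∏ j, (1 + pm m (f j))) / ((min k l : ℕ) + 1 : ℝ)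

/-- (CHR) the mollified moments tested with cut off waves. -/
def T_CHR : Prop := ∀ (d : ℕ) (μ : Measure (SD d)) [IsProbabilityMeasure μ], IsMAO μ →
  TransInv μ → ∀ (ρ : ℕ → S d), Api ρ → ∀ (n : ℕ) (χ : Fin n → V d → ℝ),
  (∀ j, ContDiff ℝ ∞ (χ j)) → (∀ j, HasCompactSupport (χ j)) → ∃ (C : ℝ) (p : ℕ),
    ∀ (l : (Fin n → V d) →L[ℝ] ℝ) (k k' : ℕ),
      |∫ y : Fin n → V d, (∏ j, χ j (y j)) * Real.cos (l y) * (mm μ (ρ k) n y - mm μ (ρ k') n y)| ≤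
        C * (1 + ‖l‖) ^ p / ((min k k' : ℕ) + 1 : ℝ) ∧
      |∫ y : Fin n → V d, (∏ j, χ j (y j)) * Real.sin (l y) * (mm μ (ρ k) n y - mm μ (ρ k') n y)| ≤
        C * (1 + ‖l‖) ^ p / ((min k k' : ℕ) + 1 : ℝ)

/-- (RG2) regularity from the bounds for the differences, with polynomial loss. -/
def T_RG2 : Prop := ∀ (E : Type) [NormedAddCommGroup E] [NormedSpace ℝ E]
  [FiniteDimensional ℝ E] [MeasurableSpace E] [BorelSpace E] (ν : Measure E)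
  [ν.IsAddHaarMeasure] (χ : E → ℝ) (U : Set E) (D : Finset E) (N p : ℕ) (C₀ : ℝ)
  (s : ℕ → E → ℝ), ContDiff ℝ ∞ χ → HasCompactSupport χ → IsOpen U → tsupport χ ⊆ U →
  Submodule.span ℝ (D : Set E) = ⊤ → (∀ k, Continuous (s k)) →
  (∀ m : ℕ, ∃ C η : ℝ, 0 < η ∧ ∀ k, ∀ v ∈ D, ∀ h : ℝ, 0 < h → h ≤ η → ∀ x ∈ U,
    (∀ i ≤ m, x + ((i : ℝ) * h) • v ∈ U) → |dm m h v (s k) x| ≤ C * ((k : ℝ) + 1) ^ N * h ^ m) →
  (∀ (l : E →L[ℝ] ℝ) (k k' : ℕ),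
    |∫ y, χ y * Real.cos (l y) * (s k y - s k' y) ∂ν| ≤
      C₀ * (1 + ‖l‖) ^ p / ((min k k' : ℕ) + 1 : ℝ) ∧
    |∫ y, χ y * Real.sin (l y) * (s k y - s k' y) ∂ν| ≤
      C₀ * (1 + ‖l‖) ^ p / ((min k k' : ℕ) + 1 : ℝ)) →
  ∃ (u : E → ℝ) (B : ℝ), ContDiff ℝ ∞ u ∧ (∀ k x, |χ x * s k x| ≤ B) ∧
    ∀ x, Tendsto (fun k => χ x * s k x) atTop (𝓝 (u x))

/-- (LOX) near `x` the moments are smooth if the differences are bounded. -/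
def T_LOX : Prop := ∀ (d : ℕ) (μ : Measure (SD d)) [IsProbabilityMeasure μ], IsMAO μ →
  TransInv μ → ∀ (ρ : ℕ → S d), Api ρ → ∀ (n : ℕ) (x : Fin n → V d) (r : ℝ)
  (D : Finset (Fin n → V d)) (N k₀ : ℕ), 0 < r → Submodule.span ℝ (D : Set (Fin n → V d)) = ⊤ →
  (∀ m : ℕ, ∃ C η : ℝ, 0 < η ∧ ∀ k, k₀ ≤ k → ∀ v ∈ D, ∀ h : ℝ, 0 < h → h ≤ η →
    ∀ y ∈ Metric.ball x r, |dm m h v (mm μ (ρ k) n) y| ≤ C * ((k : ℝ) + 1) ^ N * h ^ m) →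
  LocP μ n x

/-- (DI2) the directions, if there are no coincidences. -/
def T_DI2 : Prop := ∀ (d n : ℕ) (x : Fin n → V d), x ∉ Diag d n → co x = ∅ →
  ∃ (D : Finset (Fin n → V d)) (δ : ℝ), 0 < δ ∧ Submodule.span ℝ (D : Set (Fin n → V d)) = ⊤ ∧
    ∀ v ∈ D, ∃ e ∈ Mir d, ∃ (R : Finset (Fin n)) (c : ℝ), v = grp R e ∧ Spt x R e c δ

/-- (GEO) a shift which removes a coincidence. -/
def T_GEO : Prop := ∀ (d n : ℕ) (x : Fin n → V d), x ∉ Diag d n → (co x).Nonempty →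
  ∃ e ∈ Mir d, ∃ (R : Finset (Fin n)) (c δ τ₀ : ℝ), 0 < δ ∧ 0 < τ₀ ∧ Spt x R e c δ ∧
    ∀ τ : ℝ, 0 < τ → τ ≤ τ₀ → x + τ • grp R e ∉ Diag d n ∧
      (co (x + τ • grp R e)).card < (co x).card

/-- (MRN) the mirrors are unit vectors. -/
def T_MRN : Prop := ∀ (d : ℕ), ∀ e ∈ Mir d, ‖e‖ = 1

/-- (DIG) differences of the mollified moments along a separating direction. -/
def T_DIG : Prop := ∀ (d : ℕ) (μ : Measure (SD d)) [IsProbabilityMeasure μ], IsMAO μ →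
  TransInv μ → ∀ (ρ : ℕ → S d), Api ρ → ∀ (n : ℕ), ∃ (Λ : ℝ) (N : ℕ), 1 ≤ Λ ∧
  ∀ e : V d, ‖e‖ = 1 → RPos μ e → RInv μ e → ∀ (x : Fin n → V d) (R : Finset (Fin n))
  (c δ : ℝ), 0 < δ → Spt x R e c δ → ∀ k : ℕ, 4 ≤ δ * ((k : ℝ) + 1) →
  ∀ y ∈ Metric.ball x (δ / 4), ∀ τ : ℝ, 0 ≤ τ → ∀ (m : ℕ) (q : ℝ), 0 < q → m * q ≤ δ / 4 →
    |dm m q (grp R e) (mm μ (ρ k) n) (y + τ • grp R e)| ≤
      Λ * ((k : ℝ) + 1) ^ N * (8 / δ * (m * q)) ^ m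

/-- (STP) smoothness propagates. -/
def T_STP : Prop := ∀ (d : ℕ) (μ : Measure (SD d)) [IsProbabilityMeasure μ], IsMAO μ →
  TransInv μ → ∀ (n : ℕ) (x : Fin n → V d) (e : V d) (R : Finset (Fin n)) (c δ τ₀ : ℝ),
  ‖e‖ = 1 → RPos μ e → RInv μ e → 0 < δ → 0 < τ₀ → Spt x R e c δ →
  (∀ τ : ℝ, 0 < τ → τ ≤ τ₀ → LocP μ n (x + τ • grp R e)) → LocP μ n x

/-- (IND) smoothness off the diagonal. -/
def T_IND : Prop := ∀ (d : ℕ) (μ : Measure (SD d)) [IsProbabilityMeasure μ], IsMAO μ →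
  TransInv μ → (∀ e ∈ Mir d, RPos μ e ∧ RInv μ e) → ∀ (n : ℕ) (x : Fin n → V d),
  x ∉ Diag d n → LocP μ n x

/-! ### Conditions 2 and 3 -/

/-- (UNG) the bounds for the cells. -/
def T_UNG : Prop := ∀ (d : ℕ) (μ : Measure (SD d)) [IsProbabilityMeasure μ], Dom μ →
  ∀ a C : ℝ, CellB μ a C → Uni μ a

/-- (LI2) the separated part of the moment tends to the moment. -/
def T_LI2 : Prop := ∀ (d : ℕ) (μ : Measure (SD d)) [IsProbabilityMeasure μ], IsMAO μ →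
  ∀ a : ℝ, Uni μ a → 2 * a < d → ∀ n : ℕ, 1 ≤ n → ∀ (R : ℕ) (f : Fin n → S d),
    (∀ i x, f i x ≠ 0 → ∀ j, |x j| ≤ R) →
    Tendsto (fun m : ℕ => ∑ k ∈ sepBox d n (R * (m + 1)),
      moment μ (fun i => cut ((m + 1 : ℝ)⁻¹) (k i) (f i))) atTop (𝓝 (moment μ f))

/-- (FA2) condition 1 and local integrability of the negative part give condition 2. -/
def T_FA2 : Prop := ∀ (d : ℕ) (μ : Measure (SD d)) [IsProbabilityMeasure μ], IsMAO μ →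
  ∀ a : ℝ, Uni μ a → 2 * a < d → ∀ n : ℕ, 1 ≤ n →
  ∀ s : (Fin n → V d) → ℝ, Pool.Agent.H43.DPC.Cond1 μ n s →
    LocallyIntegrable (fun x => max (-(s x)) 0) (volume.restrict (Diag d n)ᶜ) → Cond2 n s

/-- (DO2) conditions 1 and 2 give the formula for compactly supported test functions. -/
def T_DO2 : Prop := ∀ (d : ℕ) (μ : Measure (SD d)) [IsProbabilityMeasure μ], IsMAO μ →
  ∀ a : ℝ, Uni μ a → 2 * a < d → ∀ n : ℕ, 1 ≤ n →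
  ∀ s : (Fin n → V d) → ℝ, Pool.Agent.H43.DPC.Cond1 μ n s → Cond2 n s →
  ∀ f : Fin n → S d, (∀ i, HasCompactSupport (f i)) →
    moment μ f = ∫ x in (Diag d n)ᶜ, s x * ∏ i, f i (x i)

/-- (PO2) positivity. -/
def T_PO2 : Prop := ∀ (d : ℕ) (μ : Measure (SD d)) [IsProbabilityMeasure μ], Dom μ → ∀ n : ℕ,
  ∀ s : (Fin n → V d) → ℝ, Pool.Agent.H43.DPC.Cond1 μ n s → ∀ x : Fin n → V d, x ∉ Diag d n →
  0 ≤ s x

/-- (EX2) condition 3. -/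
def T_EX2 : Prop := ∀ (d : ℕ) (μ : Measure (SD d)) [IsProbabilityMeasure μ], Dom μ →
  ∀ (n : ℕ) (s : (Fin n → V d) → ℝ), Pool.Agent.H43.DPC.Cond1 μ n s → Cond2 n s →
  (∀ x : Fin n → V d, x ∉ Diag d n → 0 ≤ s x) →
  (∀ f : Fin n → S d, (∀ i, HasCompactSupport (f i)) →
    moment μ f = ∫ x in (Diag d n)ᶜ, s x * ∏ i, f i (x i)) → Cond3 μ n s

/-- (TPF) the two point function. -/
def T_TPF : Prop := ∀ (d : ℕ) (μ : Measure (SD d)) [IsProbabilityMeasure μ], IsMAO μ →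
  TransInv μ → ∀ s : (Fin 2 → V d) → ℝ, Pool.Agent.H43.DPC.Cond1 μ 2 s →
  ∃ F : V d → ℝ, ContDiffOn ℝ ∞ F {0}ᶜ ∧ (∀ z, F (-z) = F z) ∧
    ∀ x : Fin 2 → V d, x ∉ Diag d 2 → s x = F (x 0 - x 1)

/-- (IRF) the mass of the two point function in the balls. -/
def T_IRF : Prop := ∀ (d : ℕ) (a : ℝ), 1 ≤ d → ∃ A : ℝ, 0 ≤ A ∧ ∀ (μ : Measure (SD d))
  [IsProbabilityMeasure μ] (C : ℝ), CellB μ a C → ∀ F : V d → ℝ, ContDiffOn ℝ ∞ F {0}ᶜ →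
  (∀ z, z ≠ 0 → 0 ≤ F z) → Cond2 2 (fun x : Fin 2 → V d => F (x 0 - x 1)) →
  Cond3 μ 2 (fun x => F (x 0 - x 1)) → ∀ r : ℝ, 0 < r → IntegrableOn F (Metric.ball 0 r) ∧
    ∫ z in Metric.ball 0 r, F z ≤ A * C * r ^ ((d : ℝ) - 2 * a)

/-- (PT2) the pointwise bound by the pairings. -/
def T_PT2 : Prop := ∀ (d : ℕ) (μ : Measure (SD d)) [IsProbabilityMeasure μ], Dom μ →
  ∀ F : V d → ℝ, ContDiffOn ℝ ∞ F {0}ᶜ → (∀ z, z ≠ 0 → 0 ≤ F z) → (∀ z, F (-z) = F z) →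
  Pool.Agent.H43.DPC.Cond1 μ 2 (fun x : Fin 2 → V d => F (x 0 - x 1)) → ∀ (n : ℕ)
  (s : (Fin n → V d) → ℝ), Pool.Agent.H43.DPC.Cond1 μ n s → ∀ x : Fin n → V d, x ∉ Diag d n →
    s x ≤ pair (fun i j => F (x i - x j)) Finset.univ

/-- (AGM) the general theorem for good laws. -/
def T_AGM : Prop := ∀ (d : ℕ) (a : ℝ), 0 < a → 2 * a < d → ∃ A : ℝ, 0 ≤ A ∧
  ∀ (μ : Measure (SD d)) (C : ℝ), (∀ e ∈ Mir d, GoodM e μ) → TransInv μ → CellB μ a C →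
    Concl μ (d - 2 * a) (A * C)

/-! ### Finite systems and limits -/

/-- (GGR) correlation inequalities for linear forms. -/
structure T_GGR : Prop where
  pos : ∀ (ι : Type) [Fintype ι] (J : ι → ι → ℝ) (g b : ι → ℝ), (∀ x, 0 < g x) →
    (∀ x y, 0 ≤ J x y) → (∀ x y, J x y = J y x) → ∀ (n : ℕ) (c : Fin n → ι → ℝ),
    (∀ i x, 0 ≤ c i x) → 0 ≤ ∫ φ : ι → ℝ, ∏ i, ∑ x, c i x * φ x ∂(glaw J g b)
  maj : ∀ (ι : Type) [Fintype ι] (J : ι → ι → ℝ) (g b : ι → ℝ), (∀ x, 0 < g x) →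
    (∀ x y, 0 ≤ J x y) → (∀ x y, J x y = J y x) → ∀ (n : ℕ) (c c' : Fin n → ι → ℝ),
    (∀ i x, |c i x| ≤ c' i x) → |∫ φ : ι → ℝ, ∏ i, ∑ x, c i x * φ x ∂(glaw J g b)| ≤
      ∫ φ : ι → ℝ, ∏ i, ∑ x, c' i x * φ x ∂(glaw J g b)
  odd : ∀ (ι : Type) [Fintype ι] (J : ι → ι → ℝ) (g b : ι → ℝ), (∀ x, 0 < g x) →
    (∀ x y, 0 ≤ J x y) → (∀ x y, J x y = J y x) → ∀ (n : ℕ), Odd n → ∀ (c : Fin n → ι → ℝ),
    ∫ φ : ι → ℝ, ∏ i, ∑ x, c i x * φ x ∂(glaw J g b) = 0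
  gau : ∀ (ι : Type) [Fintype ι] (J : ι → ι → ℝ) (g b : ι → ℝ), (∀ x, 0 < g x) →
    (∀ x y, 0 ≤ J x y) → (∀ x y, J x y = J y x) → ∀ (n : ℕ) (c : Fin n → ι → ℝ),
    (∀ i x, 0 ≤ c i x) → ∫ φ : ι → ℝ, ∏ i, ∑ x, c i x * φ x ∂(glaw J g b) ≤
      pair (fun i j => ∫ φ : ι → ℝ, (∑ x, c i x * φ x) * ∑ x, c j x * φ x ∂(glaw J g b))
        Finset.univ

/-- (FEX) the field as a random distribution. -/
def T_FEX : Prop := ∀ (d : ℕ) (ι : Type) [Fintype ι] (pos : ι → V d) (w : ι → ℝ),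
  ∃ F : (ι → ℝ) → SD d, IsField pos w F ∧ Continuous F

/-- (MSG) the fields of the finite systems are good. -/
def T_MSG : Prop := ∀ (d : ℕ) (e : V d) (A : MSys d e) (F : (A.ι → ℝ) → SD d),
  IsField A.pos A.w F → GoodM e (A.law.map F)

/-- (LMV) limits in law: the moments converge. -/
def T_LMV : Prop := ∀ (d : ℕ) (ν : ℕ → Measure (SD d)) (μ : Measure (SD d)),
  (∀ k, IsProbabilityMeasure (ν k) ∧ Dom (ν k)) → IsProbabilityMeasure μ → Cvg ν μ →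
  Dom μ ∧ ∀ l : List (S d), Tendsto (fun k => ml (ν k) l) atTop (𝓝 (ml μ l))

/-- (CLM) limits in law of good laws are good. -/
def T_CLM : Prop := ∀ (d : ℕ) (e : V d) (ν : ℕ → Measure (SD d)) (μ : Measure (SD d)),
  (∀ k, GoodM e (ν k)) → IsProbabilityMeasure μ → Cvg ν μ → GoodM e μ

/-- (BXR) the fields in the boxes belong to the class, for all mirrors. -/
def T_BXR : Prop := ∀ (d L : ℕ) (δ κ κ' s g b w : ℝ), 0 < δ → 0 ≤ κ → 0 ≤ κ' →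
  (d : ℝ) ≤ 2 * s → 0 < g → 0 ≤ w → ∀ e ∈ Mir d, ∀ F : (Bx d L → ℝ) → SD d,
  IsField (bpos δ) (fun _ => w) F → Reach2 e ((bgibbs d L δ κ κ' s g b).map F)

/-- (IVR) the infinite volume laws belong to the class. -/
def T_IVR : Prop := ∀ (d : ℕ) (δ κ κ' s g b w : ℝ), 0 < δ → 0 ≤ κ → 0 ≤ κ' →
  (d : ℝ) ≤ 2 * s → 0 < g → 0 ≤ w → ∀ ν : Measure (SD d), InfVol d δ κ κ' s g b w ν →
  ∀ e ∈ Mir d, Reach2 e ν

/-- (IVM) infinite volume: the moments converge. -/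
def T_IVM : Prop := ∀ (d : ℕ) (δ κ κ' s g b w : ℝ), 1 ≤ d → 0 < δ → 0 ≤ κ → 0 ≤ κ' →
  (d : ℝ) ≤ 2 * s → 0 < g → 0 ≤ w → ∀ ν : Measure (SD d), InfVol d δ κ κ' s g b w ν →
  Dom ν ∧ ∀ (n : ℕ) (f : Fin n → S d),
    Tendsto (fun L : ℕ => ∫ φ : Bx d L → ℝ, ∏ i, ∑ x, w * φ x * f i (bpos δ x)
      ∂(bgibbs d L δ κ κ' s g b)) atTop (𝓝 (moment ν f))

/-- (IVT) infinite volume: invariance under the lattice translations. -/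
def T_IVT : Prop := ∀ (d : ℕ) (δ κ κ' s g b w : ℝ), 1 ≤ d → 0 < δ → 0 ≤ κ → 0 ≤ κ' →
  (d : ℝ) ≤ 2 * s → 0 < g → 0 ≤ w → ∀ ν : Measure (SD d), InfVol d δ κ κ' s g b w ν →
  ∀ (z : Fin d → ℤ) (f : S d),
    ∫ T : SD d, Complex.exp (Complex.I * ((T (trans (ipt δ z) f) : ℝ) : ℂ)) ∂ν =
    ∫ T : SD d, Complex.exp (Complex.I * ((T f : ℝ) : ℂ)) ∂ν

/-- (IVC) infinite volume: the bound for the two point function in cubes. -/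
def T_IVC : Prop := ∀ (d : ℕ) (α : ℝ), 0 < α → α < d → ∃ A : ℝ, 0 ≤ A ∧
  ∀ (δ κ κ' g b w : ℝ), 0 < δ → 0 < κ → 0 ≤ κ' → 0 < g → 0 ≤ w →
  (∀ b', b < b' → NoLRO d δ κ κ' ((d + α) / 2) g b') →
  ∀ ν : Measure (SD d), InfVol d δ κ κ' ((d + α) / 2) g b w ν →
  ∀ (t : ℝ) (y : V d) (h : S d), 0 < t → (∀ x, 0 ≤ h x ∧ h x ≤ 1) →
  (∀ x, h x ≠ 0 → ∀ j, |x j - y j| ≤ t) →
    moment ν ![h, h] ≤ A * (w ^ 2 / κ) * (max t δ) ^ ((d : ℝ) + α)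

/-- (SMB) second moments from the bounds in unit cubes. -/
def T_SMB : Prop := ∀ d : ℕ, ∃ (C : ℝ) (m : ℕ), 0 ≤ C ∧ ∀ (μ : Measure (SD d))
  [IsProbabilityMeasure μ], Dom μ → ∀ K : ℝ, (∀ (y : V d) (h : S d), (∀ x, 0 ≤ h x ∧ h x ≤ 1) →
    (∀ x, h x ≠ 0 → ∀ j, |x j - y j| ≤ 1) → moment μ ![h, h] ≤ K) →
  ∀ f : S d, ∫ T : SD d, (T f) ^ 2 ∂μ ≤ K * (C * pm m f) ^ 2

/-- (TRC) the limit is translation invariant if the spacing tends to `0`. -/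
def T_TRC : Prop := ∀ (d : ℕ) (ν : ℕ → Measure (SD d)) (μ : Measure (SD d)) (δ : ℕ → ℝ)
  (C : ℝ) (m : ℕ), (∀ k, IsProbabilityMeasure (ν k) ∧ IsMAO (ν k)) → IsProbabilityMeasure μ →
  Cvg ν μ → (∀ k, 0 < δ k) → Tendsto δ atTop (𝓝 0) →
  (∀ (k : ℕ) (z : Fin d → ℤ) (f : S d),
    ∫ T : SD d, Complex.exp (Complex.I * ((T (trans (ipt (δ k) z) f) : ℝ) : ℂ)) ∂(ν k) =
    ∫ T : SD d, Complex.exp (Complex.I * ((T f : ℝ) : ℂ)) ∂(ν k)) →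
  (∀ (k : ℕ) (f : S d), ∫ T : SD d, (T f) ^ 2 ∂(ν k) ≤ (C * pm m f) ^ 2) → TransInv μ

/-! ### Tightness -/

/-- (FRM) the space of test functions is nuclear: a sequence of test functions which controls all
functionals. -/
def T_FRM : Prop := ∀ (d m : ℕ), ∃ (h : ℕ → S d) (c : ℕ → ℝ) (M : ℕ), (∀ i, 0 < c i) ∧
  Summable (fun i => c i * (1 + pm m (h i))) ∧ ∀ (T : SD d) (f : S d),
    Summable (fun i => c i * |T (h i)|) → |T f| ≤ pm M f * ∑' i, c i * |T (h i)|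

/-- (TGT) tightness from second moments. -/
def T_TGT : Prop := ∀ (d m : ℕ) (C : ℝ), ∃ M : ℕ, ∀ ε : ℝ, 0 < ε → ∃ R : ℝ, 0 < R ∧
  ∀ ν : Measure (SD d), IsProbabilityMeasure ν → (∀ f : S d, MemLp (fun T : SD d => T f) 2 ν) →
  (∀ f : S d, ∫ T : SD d, (T f) ^ 2 ∂ν ≤ (C * pm m f) ^ 2) →
    ν {T : SD d | ∀ f : S d, |T f| ≤ R * pm M f}ᶜ ≤ ENNReal.ofReal ε

/-- (PCK) the polars are compact. -/
def T_PCK : Prop := ∀ (d M : ℕ) (R : ℝ), IsCompact {T : SD d | ∀ f : S d, |T f| ≤ R * pm M f}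

/-- (PRO) compactness. -/
def T_PRO : Prop := ∀ (d m : ℕ) (C : ℝ) (ν : ℕ → Measure (SD d)),
  (∀ k, IsProbabilityMeasure (ν k)) → (∀ k (f : S d), MemLp (fun T : SD d => T f) 2 (ν k)) →
  (∀ k (f : S d), ∫ T : SD d, (T f) ^ 2 ∂(ν k) ≤ (C * pm m f) ^ 2) →
  ∃ φ : ℕ → ℕ, StrictMono φ ∧ ∃ μ : Measure (SD d), IsProbabilityMeasure μ ∧
    Cvg (fun k => ν (φ k)) μ

/-- (EXI) the infinite volume law exists and is unique. -/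
def T_EXI : Prop := ∀ (d : ℕ) (α : ℝ), 0 < α → α < d → ∀ (δ κ κ' g b w : ℝ), 0 < δ → 0 < κ →
  0 ≤ κ' → 0 < g → 0 ≤ w → (∀ b', b < b' → NoLRO d δ κ κ' ((d + α) / 2) g b') →
  ∃! ν : Measure (SD d), InfVol d δ κ κ' ((d + α) / 2) g b w ν

end

end Pool.Agent.H29.UDP
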